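import Mathlib

/-! Two self-homeomorphisms which move every point to the right and agree on the far left are
conjugate. -/

namespace Pool.Agent.Helper692_MAF

open Function Filter Topology

section Conj

variable {Z : Type*} [TopologicalSpace Z]

/-- A homeomorphism which increases the function `ξ` by at least `ρ`. -/
def Pushes (ξ : Z → ℝ) (ρ : ℝ) (T : Z ≃ₜ Z) : Prop := ∀ z, ξ z + ρ ≤ ξ (T z)

lemma Pushes.symm_le {ξ : Z → ℝ} {ρ : ℝ} {T : Z ≃ₜ Z} (h : Pushes ξ ρ T) (z : Z) :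
    ξ (T.symm z) ≤ ξ z - ρ := by
  have := h (T.symm z)
  rw [T.apply_symm_apply] at this
  linarith

lemma Pushes.symm_iterate_le {ξ : Z → ℝ} {ρ : ℝ} {T : Z ≃ₜ Z} (h : Pushes ξ ρ T) (z : Z)
    (k : ℕ) : ξ (T.symm^[k] z) ≤ ξ z - k * ρ := by
  induction k with
  | zero => simp
  | succ k ih =>
    rw [Function.iterate_succ_apply']
    have := h.symm_le (T.symm^[k] z)
    push_cast
    linarith

lemma Pushes.iterate_ge {ξ : Z → ℝ} {ρ : ℝ} {T : Z ≃ₜ Z} (h : Pushes ξ ρ T) (z : Z)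
    (k : ℕ) : ξ z + k * ρ ≤ ξ (T^[k] z) := by
  induction k with
  | zero => simp
  | succ k ih =>
    rw [Function.iterate_succ_apply']
    have := h (T^[k] z)
    push_cast
    linarith

/-- The eventual value of `S^k T^{-k} z`. -/
noncomputable def conjFun (ξ : Z → ℝ) (ρ c : ℝ) (S T : Z ≃ₜ Z) (z : Z) : Z :=
  S^[⌈(ξ z - c) / ρ⌉₊] (T.symm^[⌈(ξ z - c) / ρ⌉₊] z)

variable {ξ : Z → ℝ} {ρ c : ℝ} {S T : Z ≃ₜ Z}

lemma exists_symm_iterate_le (hρ : 0 < ρ) (hT : Pushes ξ ρ T) (z : Z) :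
    ξ (T.symm^[⌈(ξ z - c) / ρ⌉₊] z) ≤ c := by
  have h1 := hT.symm_iterate_le z ⌈(ξ z - c) / ρ⌉₊
  have h2 : (ξ z - c) / ρ ≤ ⌈(ξ z - c) / ρ⌉₊ := Nat.le_ceil _
  rw [div_le_iff₀ hρ] at h2
  linarith

lemma stable_aux (hρ : 0 < ρ) (hT : Pushes ξ ρ T) (hST : ∀ z, ξ z ≤ c → S z = T z)
    (z : Z) (k j : ℕ) (hk : ξ (T.symm^[k] z) ≤ c) :
    S^[k + j] (T.symm^[k + j] z) = S^[k] (T.symm^[k] z) := by
  induction j with
  | zero => rfl
  | succ j ih =>
    have h1 : ξ (T.symm^[k + j] z) ≤ c := by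
      rw [add_comm k j, Function.iterate_add_apply]
      have := hT.symm_iterate_le (T.symm^[k] z) j
      have h3 : 0 ≤ (j : ℝ) * ρ := by positivity
      linarith
    have h2 : ξ (T.symm (T.symm^[k + j] z)) ≤ c := by
      have := hT.symm_le (T.symm^[k + j] z)
      linarith
    rw [← add_assoc, Function.iterate_succ_apply' T.symm, Function.iterate_succ_apply S,
      hST _ h2, T.apply_symm_apply]
    exact ih

lemma stable (hρ : 0 < ρ) (hT : Pushes ξ ρ T) (hST : ∀ z, ξ z ≤ c → S z = T z)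
    (z : Z) (k l : ℕ) (hk : ξ (T.symm^[k] z) ≤ c) (hl : ξ (T.symm^[l] z) ≤ c) :
    S^[k] (T.symm^[k] z) = S^[l] (T.symm^[l] z) := by
  rcases le_total k l with h | h
  · obtain ⟨j, rfl⟩ := Nat.exists_eq_add_of_le h
    exact (stable_aux hρ hT hST z k j hk).symm
  · obtain ⟨j, rfl⟩ := Nat.exists_eq_add_of_le h
    exact stable_aux hρ hT hST z l j hl

lemma conjFun_eq (hρ : 0 < ρ) (hT : Pushes ξ ρ T) (hST : ∀ z, ξ z ≤ c → S z = T z)
    (z : Z) (l : ℕ) (hl : ξ (T.symm^[l] z) ≤ c) :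
    conjFun ξ ρ c S T z = S^[l] (T.symm^[l] z) :=
  stable hρ hT hST z _ _ (exists_symm_iterate_le hρ hT z) hl

lemma conjFun_conjFun (hρ : 0 < ρ) (hS : Pushes ξ ρ S) (hT : Pushes ξ ρ T)
    (hST : ∀ z, ξ z ≤ c → S z = T z) (z : Z) :
    conjFun ξ ρ c T S (conjFun ξ ρ c S T z) = z := by
  have hTS : ∀ z, ξ z ≤ c → T z = S z := fun z hz => (hST z hz).symm
  set k := ⌈(ξ z - c) / ρ⌉₊ with hk
  have h1 : ξ (T.symm^[k] z) ≤ c := exists_symm_iterate_le hρ hT z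
  have h2 : conjFun ξ ρ c S T z = S^[k] (T.symm^[k] z) := rfl
  have h3 : S.symm^[k] (S^[k] (T.symm^[k] z)) = T.symm^[k] z :=
    (Function.LeftInverse.iterate S.symm_apply_apply k) _
  rw [h2, conjFun_eq hρ hS hTS _ k (by rw [h3]; exact h1), h3]
  exact (Function.LeftInverse.iterate T.apply_symm_apply k) _

lemma continuous_conjFun (hξ : Continuous ξ) (hρ : 0 < ρ) (hT : Pushes ξ ρ T)
    (hST : ∀ z, ξ z ≤ c → S z = T z) : Continuous (conjFun ξ ρ c S T) := by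
  rw [continuous_iff_continuousAt]
  intro z₀
  set k := ⌈(ξ z₀ + 1 - c) / ρ⌉₊ with hk
  have h0 : ∀ z, ξ z < ξ z₀ + 1 → ξ (T.symm^[k] z) ≤ c := by
    intro z hz
    have h1 := hT.symm_iterate_le z k
    have h2 : (ξ z₀ + 1 - c) / ρ ≤ k := Nat.le_ceil _
    rw [div_le_iff₀ hρ] at h2
    linarith
  have h1 : ∀ᶠ z in 𝓝 z₀, ξ z < ξ z₀ + 1 :=
    (hξ.tendsto z₀).eventually (gt_mem_nhds (by linarith))
  have h2 : (fun z => S^[k] (T.symm^[k] z)) =ᶠ[𝓝 z₀] conjFun ξ ρ c S T := by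
    filter_upwards [h1] with z hz
    exact (conjFun_eq hρ hT hST z k (h0 z hz)).symm
  refine ContinuousAt.congr ?_ h2
  exact ((S.continuous.iterate k).comp (T.symm.continuous.iterate k)).continuousAt

/-- The conjugating homeomorphism. -/
noncomputable def conjHomeo (hξ : Continuous ξ) (hρ : 0 < ρ) (hS : Pushes ξ ρ S)
    (hT : Pushes ξ ρ T) (hST : ∀ z, ξ z ≤ c → S z = T z) : Z ≃ₜ Z where
  toFun := conjFun ξ ρ c S T
  invFun := conjFun ξ ρ c T S
  left_inv := conjFun_conjFun hρ hS hT hST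
  right_inv := conjFun_conjFun hρ hT hS (fun z hz => (hST z hz).symm)
  continuous_toFun := continuous_conjFun hξ hρ hT hST
  continuous_invFun := continuous_conjFun hξ hρ hS (fun z hz => (hST z hz).symm)

lemma conjHomeo_apply (hξ : Continuous ξ) (hρ : 0 < ρ) (hS : Pushes ξ ρ S)
    (hT : Pushes ξ ρ T) (hST : ∀ z, ξ z ≤ c → S z = T z) (z : Z) :
    ∃ k : ℕ, conjHomeo hξ hρ hS hT hST z = S^[k] (T.symm^[k] z) := ⟨_, rfl⟩

lemma conjHomeo_conj (hξ : Continuous ξ) (hρ : 0 < ρ) (hS : Pushes ξ ρ S)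
    (hT : Pushes ξ ρ T) (hST : ∀ z, ξ z ≤ c → S z = T z) (z : Z) :
    conjHomeo hξ hρ hS hT hST (T z) = S (conjHomeo hξ hρ hS hT hST z) := by
  change conjFun ξ ρ c S T (T z) = S (conjFun ξ ρ c S T z)
  set k := ⌈(ξ z - c) / ρ⌉₊ with hk
  have h1 : ξ (T.symm^[k] z) ≤ c := exists_symm_iterate_le hρ hT z
  have h2 : ξ (T.symm^[k + 1] (T z)) ≤ c := by
    rw [Function.iterate_succ_apply, T.symm_apply_apply]; exact h1
  rw [conjFun_eq hρ hT hST _ (k + 1) h2, conjFun_eq hρ hT hST z k h1,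
    Function.iterate_succ_apply T.symm, T.symm_apply_apply, Function.iterate_succ_apply' S]

/-- The conjugating homeomorphism preserves everything which is preserved by both maps. -/
lemma conjHomeo_preserves (hξ : Continuous ξ) (hρ : 0 < ρ) (hS : Pushes ξ ρ S)
    (hT : Pushes ξ ρ T) (hST : ∀ z, ξ z ≤ c → S z = T z) {W : Type*} (Φ : Z → W)
    (h1 : ∀ z, Φ (S z) = Φ z) (h2 : ∀ z, Φ (T z) = Φ z) (z : Z) :
    Φ (conjHomeo hξ hρ hS hT hST z) = Φ z := by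
  obtain ⟨k, hk⟩ := conjHomeo_apply hξ hρ hS hT hST z
  have h3 : ∀ (j : ℕ) z, Φ (S^[j] z) = Φ z := by
    intro j
    induction j with
    | zero => intro z; rfl
    | succ j ih => intro z; rw [Function.iterate_succ_apply', h1, ih]
  have h4 : ∀ (j : ℕ) z, Φ (T.symm^[j] z) = Φ z := by
    intro j
    induction j with
    | zero => intro z; rfl
    | succ j ih =>
      intro z
      rw [Function.iterate_succ_apply', ← h2 (T.symm _), T.apply_symm_apply, ih]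
  rw [hk, h3, h4]

/-- The conjugating homeomorphism commutes with everything which commutes with both maps. -/
lemma conjHomeo_comm (hξ : Continuous ξ) (hρ : 0 < ρ) (hS : Pushes ξ ρ S)
    (hT : Pushes ξ ρ T) (hST : ∀ z, ξ z ≤ c → S z = T z) (U : Z → Z)
    (h1 : ∀ z, S (U z) = U (S z)) (h2 : ∀ z, T (U z) = U (T z)) (h3 : ∀ z, ξ (U z) = ξ z)
    (z : Z) :
    conjHomeo hξ hρ hS hT hST (U z) = U (conjHomeo hξ hρ hS hT hST z) := by
  change conjFun ξ ρ c S T (U z) = U (conjFun ξ ρ c S T z)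
  have h4 : ∀ (j : ℕ) z, S^[j] (U z) = U (S^[j] z) := by
    intro j
    induction j with
    | zero => intro z; rfl
    | succ j ih => intro z; rw [Function.iterate_succ_apply', ih, h1, Function.iterate_succ_apply']
  have h5 : ∀ (j : ℕ) z, T.symm^[j] (U z) = U (T.symm^[j] z) := by
    intro j
    induction j with
    | zero => intro z; rfl
    | succ j ih =>
      intro z
      rw [Function.iterate_succ_apply', ih, Function.iterate_succ_apply']
      apply T.injective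
      rw [h2, T.apply_symm_apply, T.apply_symm_apply]
  unfold conjFun
  rw [h3, h5, h4]

end Conj

/-- Two homeomorphisms `T₁`, `T₂` which push to the right are conjugate if a third one agrees
with the first on the far left and with the second on the far right. -/
theorem exists_conj_of_interpolation {Z : Type*} [TopologicalSpace Z] {ξ : Z → ℝ}
    (hξ : Continuous ξ) {ρ c c' D : ℝ} (hρ : 0 < ρ) {T₁ S T₂ : Z ≃ₜ Z}
    (h₁ : Pushes ξ ρ T₁) (hS : Pushes ξ ρ S) (h₂ : Pushes ξ ρ T₂)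
    (hl : ∀ z, ξ z ≤ c → S z = T₁ z) (hr : ∀ z, c' ≤ ξ z → S z = T₂ z)
    (hD : ∀ z, ξ (T₂ z) ≤ ξ z + D)
    {W : Type*} (Φ : Z → W) (hΦ₁ : ∀ z, Φ (T₁ z) = Φ z) (hΦS : ∀ z, Φ (S z) = Φ z)
    (hΦ₂ : ∀ z, Φ (T₂ z) = Φ z)
    {ι : Type*} (U : ι → Z → Z) (hU₁ : ∀ i z, T₁ (U i z) = U i (T₁ z))
    (hUS : ∀ i z, S (U i z) = U i (S z)) (hU₂ : ∀ i z, T₂ (U i z) = U i (T₂ z))
    (hUξ : ∀ i z, ξ (U i z) = ξ z) :
    ∃ g : Z ≃ₜ Z, (∀ z, g (T₁ z) = T₂ (g z)) ∧ (∀ z, Φ (g z) = Φ z) ∧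
      (∀ i z, g (U i z) = U i (g z)) ∧
      ∀ z k, ξ z ≤ c → c' + D ≤ ξ (S^[k] z) → g z = T₂.symm^[k] (S^[k] z) := by
  -- the right half is obtained by reflection
  have hξ' : Continuous (fun z => - ξ z) := hξ.neg
  have hS' : Pushes (fun z => - ξ z) ρ S.symm := fun z => by
    have := hS.symm_le z
    change -ξ z + ρ ≤ -ξ (S.symm z)
    linarith
  have h₂' : Pushes (fun z => - ξ z) ρ T₂.symm := fun z => by
    have := h₂.symm_le z
    change -ξ z + ρ ≤ -ξ (T₂.symm z)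
    linarith
  have hr' : ∀ z, - ξ z ≤ -(c' + D) → S.symm z = T₂.symm z := by
    intro z hz
    have h3 := hD (T₂.symm z)
    rw [T₂.apply_symm_apply] at h3
    have h4 : S (T₂.symm z) = z := by
      rw [hr _ (by linarith), T₂.apply_symm_apply]
    rw [S.symm_apply_eq, h4]
  let g₁ := conjHomeo hξ hρ hS h₁ hl
  let g₂ := conjHomeo hξ' hρ hS' h₂' hr'
  have e₁ : ∀ z, g₁ (T₁ z) = S (g₁ z) := conjHomeo_conj hξ hρ hS h₁ hl
  have e₂ : ∀ z, g₂ (T₂ z) = S (g₂ z) := by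
    intro z
    have h3 : g₂ (T₂.symm (T₂ z)) = S.symm (g₂ (T₂ z)) := conjHomeo_conj hξ' hρ hS' h₂' hr' (T₂ z)
    rw [T₂.symm_apply_apply] at h3
    rw [h3, S.apply_symm_apply]
  refine ⟨g₁.trans g₂.symm, fun z => ?_, fun z => ?_, fun i z => ?_, fun z k hz hk => ?_⟩
  · change g₂.symm (g₁ (T₁ z)) = T₂ (g₂.symm (g₁ z))
    rw [e₁, g₂.symm_apply_eq, e₂, g₂.apply_symm_apply]
  · change Φ (g₂.symm (g₁ z)) = Φ z
    have h3 : Φ (g₂ (g₂.symm (g₁ z))) = Φ (g₂.symm (g₁ z)) :=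
      conjHomeo_preserves hξ' hρ hS' h₂' hr' Φ
        (fun z => by rw [← hΦS (S.symm z), S.apply_symm_apply])
        (fun z => by rw [← hΦ₂ (T₂.symm z), T₂.apply_symm_apply]) _
    rw [← h3, g₂.apply_symm_apply]
    exact conjHomeo_preserves hξ hρ hS h₁ hl Φ hΦS hΦ₁ z
  · change g₂.symm (g₁ (U i z)) = U i (g₂.symm (g₁ z))
    have h3 : g₁ (U i z) = U i (g₁ z) :=
      conjHomeo_comm hξ hρ hS h₁ hl (U i) (hUS i) (hU₁ i) (hUξ i) z
    have h4 : ∀ z, g₂ (U i z) = U i (g₂ z) := fun z =>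
      conjHomeo_comm hξ' hρ hS' h₂' hr' (U i)
        (fun z => by rw [S.symm_apply_eq, hUS, S.apply_symm_apply])
        (fun z => by rw [T₂.symm_apply_eq, hU₂, T₂.apply_symm_apply])
        (fun z => by rw [hUξ]) z
    rw [h3, g₂.symm_apply_eq, h4, g₂.apply_symm_apply]
  · change g₂.symm (g₁ z) = _
    have h3 : g₁ z = z := conjFun_eq hρ h₁ hl z 0 (by simpa using hz)
    rw [h3]
    exact conjFun_eq (ξ := fun z => - ξ z) (c := -(c' + D)) (S := T₂.symm) (T := S.symm) hρ hS'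
      (fun z hz => (hr' z hz).symm) z k (by
        change - ξ (S^[k] z) ≤ -(c' + D)
        linarith)

end Pool.Agent.Helper692_MAF
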