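import Mathlib

/-! A homotopy in `G ⧸ Γ`, with `Γ` discrete, is given by a continuous family of elements of `G`. -/

namespace Pool.Agent.Helper692_MAF

open Function Filter Topology Set unitInterval

variable {G : Type*} [Group G] [TopologicalSpace G] [IsTopologicalGroup G]

lemma isCoveringMap_mk (Γ : Subgroup G) (hΓ : IsDiscrete (Γ : Set G)) :
    IsCoveringMap (QuotientGroup.mk : G → G ⧸ Γ) :=
  (Γ.isQuotientCoveringMap hΓ).isCoveringMap

/-- Uniqueness of the moving path. -/
lemma mover_unique (Γ : Subgroup G) (hΓ : IsDiscrete (Γ : Set G)) {u₁ u₂ : I → G}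
    (h₁ : Continuous u₁) (h₂ : Continuous u₂) (h0 : u₁ 0 = u₂ 0) (b : G ⧸ Γ)
    (h : ∀ s, u₁ s • b = u₂ s • b) (s : I) : u₁ s = u₂ s := by
  obtain ⟨g, rfl⟩ := QuotientGroup.mk_surjective b
  have hcov := isCoveringMap_mk Γ hΓ
  have e : (fun s => u₁ s * g) = fun s => u₂ s * g :=
    hcov.eq_of_comp_eq (h₁.mul continuous_const) (h₂.mul continuous_const)
      (by funext s; exact h s) 0 (by simp only [h0])
  exact mul_right_cancel (congrFun e s)

theorem exists_mover (Γ : Subgroup G) (hΓ : IsDiscrete (Γ : Set G)) {X : Type*}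
    [TopologicalSpace X] (F : I × X → G ⧸ Γ) (hF : Continuous F) :
    ∃ u : I × X → G, Continuous u ∧ (∀ x, u (0, x) = 1) ∧ ∀ s x, F (s, x) = u (s, x) • F (0, x) := by
  have hcov := isCoveringMap_mk Γ hΓ
  -- pointwise existence
  have h1 : ∀ x, ∃ γ : C(I, G), γ 0 = 1 ∧ ∀ s, F (s, x) = γ s • F (0, x) := by
    intro x
    obtain ⟨g, hg⟩ := QuotientGroup.mk_surjective (F (0, x))
    let γ₀ : C(I, G ⧸ Γ) := ⟨fun s => F (s, x), hF.comp (continuous_id.prodMk continuous_const)⟩
    obtain ⟨γ, hγ, hγ0⟩ := hcov.exists_path_lifts γ₀ g hg.symm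
    refine ⟨⟨fun s => γ s * g⁻¹, γ.continuous.mul continuous_const⟩, ?_, fun s => ?_⟩
    · change γ 0 * g⁻¹ = 1
      rw [hγ0, mul_inv_cancel]
    · change F (s, x) = (γ s * g⁻¹) • F (0, x)
      rw [← hg]
      have h2 : (QuotientGroup.mk (γ s) : G ⧸ Γ) = F (s, x) := congrFun hγ s
      rw [← h2]
      change _ = (QuotientGroup.mk ((γ s * g⁻¹) * g) : G ⧸ Γ)
      rw [inv_mul_cancel_right]
  choose γ hγ0 hγ using h1
  refine ⟨fun z => γ z.2 z.1, ?_, fun x => hγ0 x, fun s x => hγ x s⟩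
  rw [continuous_iff_continuousAt]
  rintro ⟨s₀, x₀⟩
  obtain ⟨g₀, hg₀⟩ := QuotientGroup.mk_surjective (F (0, x₀))
  obtain ⟨e, he, hee⟩ := hcov.isLocalHomeomorph g₀
  have hF0 : Continuous fun x => F (0, x) := hF.comp (continuous_const.prodMk continuous_id)
  let A : Set X := (fun x => F (0, x)) ⁻¹' e.target
  have hA : IsOpen A := e.open_target.preimage hF0
  have hx₀ : x₀ ∈ A := by
    change F (0, x₀) ∈ e.target
    rw [← hg₀, hee]
    exact e.map_source he
  -- the local section
  let sec : C(A, G) := ⟨fun x => e.symm (F (0, x)), by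
    refine continuous_iff_continuousAt.2 fun x => ?_
    have h2 : ContinuousAt e.symm (F (0, (x : X))) :=
      (e.symm.continuousOn).continuousAt (e.open_target.mem_nhds x.2)
    exact ContinuousAt.comp (f := fun x : A => F (0, (x : X))) h2
      (hF0.comp continuous_subtype_val).continuousAt⟩
  have hsec : ∀ x : A, (QuotientGroup.mk (sec x) : G ⧸ Γ) = F (0, (x : X)) := by
    intro x
    change (QuotientGroup.mk (e.symm (F (0, (x : X)))) : G ⧸ Γ) = _
    rw [hee]
    exact e.right_inv x.2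
  let H : C(I × A, G ⧸ Γ) := ⟨fun z => F (z.1, z.2),
    hF.comp (continuous_fst.prodMk (continuous_subtype_val.comp continuous_snd))⟩
  let K : C(I × A, G) := hcov.liftHomotopy H sec (fun a => (hsec a).symm)
  have hK : ∀ s (a : A), (QuotientGroup.mk (K (s, a)) : G ⧸ Γ) = F (s, (a : X)) := fun s a =>
    congrFun (hcov.liftHomotopy_lifts H sec (fun a => (hsec a).symm)) (s, a)
  have hK0 : ∀ a : A, K (0, a) = sec a := fun a => hcov.liftHomotopy_zero H sec _ a
  have h2 : ∀ s (a : A), γ a s = K (s, a) * (sec a)⁻¹ := by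
    intro s a
    refine mover_unique Γ hΓ (u₁ := fun s => γ a s) (u₂ := fun s => K (s, a) * (sec a)⁻¹)
      (γ a).continuous ?_ ?_ (F (0, (a : X))) (fun s => ?_) s
    · exact (K.continuous.comp (continuous_id.prodMk continuous_const)).mul continuous_const
    · simp only [hγ0, hK0, mul_inv_cancel]
    · rw [← hγ, ← hsec]
      change _ = (QuotientGroup.mk ((K (s, a) * (sec a)⁻¹) * sec a) : G ⧸ Γ)
      rw [inv_mul_cancel_right, hK]
  have h3 : IsOpenEmbedding (Prod.map id Subtype.val : I × A → I × X) :=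
    IsOpenEmbedding.id.prodMap hA.isOpenEmbedding_subtypeVal
  have h4 : (s₀, x₀) = (Prod.map id Subtype.val : I × A → I × X) (s₀, ⟨x₀, hx₀⟩) := rfl
  rw [h4, ← h3.continuousAt_iff]
  have h5 : (fun z : I × X => γ z.2 z.1) ∘ (Prod.map id Subtype.val : I × A → I × X) =
      fun z : I × A => K z * (sec z.2)⁻¹ := by
    funext z
    exact h2 z.1 z.2
  rw [h5]
  exact (K.continuous.mul (sec.continuous.comp continuous_snd).inv).continuousAt

end Pool.Agent.Helper692_MAF
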