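import Mathlib

/-! Definitions used in the statements. -/

universe u v w

namespace Pool.Agent.Helper692_MAF

open Topology Set

/-- A topological group with a chain of subgroups `G = G₀ > G₁ > ... > Gₙ = 1` in which each
`Gᵢ` is the product of `Gᵢ₊₁` and of a one-parameter subgroup, and right multiplications act with
bounded displacement on the line `Gᵢ₊₁ ∖ Gᵢ`. In detail: `G = 1` for `n = 0`; for `n + 1` there
are a subgroup `H`, a continuous function `ξ : G → ℝ` and a continuous homomorphism `a : ℝ → G`
such that `H` is the zero set of `ξ`, `ξ (k * g) = ξ g` for `k ∈ H`, `ξ (g * a s) = ξ g + s`, for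
every compact set `C` the numbers `ξ (g * x) - ξ g`, `g ∈ G`, `x ∈ C`, are bounded, and `H` has a
chain of length `n`. All contractible Lie groups of dimension `n` (in particular all simply
connected solvable ones and the universal cover of `SL₂(ℝ)`) have such a chain. -/
def RealChain : ℕ → ∀ (G : Type u) [Group G] [TopologicalSpace G], Prop
  | 0, G, _, _ => Subsingleton G
  | n + 1, G, _, _ => ∃ (H : Subgroup G) (ξ : G → ℝ) (a : Multiplicative ℝ →* G),
      Continuous ξ ∧ Continuous a ∧ (∀ g, g ∈ H ↔ ξ g = 0) ∧ (∀ k ∈ H, ∀ g, ξ (k * g) = ξ g) ∧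
      (∀ g s, ξ (g * a (Multiplicative.ofAdd s)) = ξ g + s) ∧
      (∀ C : Set G, IsCompact C → ∃ c, ∀ g, ∀ x ∈ C, |ξ (g * x) - ξ g| ≤ c) ∧ RealChain n H

/-- A map is locally trivial (a fibre bundle projection) if it is trivial, with its own fibre,
near every point of the base. -/
def LocTriv {M B : Type*} [TopologicalSpace M] [TopologicalSpace B] (p : M → B) : Prop :=
  ∀ b, ∃ e : Bundle.Trivialization (p ⁻¹' {b}) p, b ∈ e.baseSet

/-- An approximate fibration: a proper map with the approximate homotopy lifting property for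
all spaces. -/
def IsApproxFib {E : Type u} {A : Type v} [TopologicalSpace E] [PseudoMetricSpace A]
    (H : E → A) : Prop :=
  IsProperMap H ∧ ∀ ε > 0, ∀ (X : Type w) [TopologicalSpace X] (f : X → E)
    (F : X × unitInterval → A), Continuous f → Continuous F → (∀ x, F (x, 0) = H (f x)) →
      ∃ G : X × unitInterval → E, Continuous G ∧ (∀ x, G (x, 0) = f x) ∧
        ∀ z, dist (H (G z)) (F z) < ε

/-- Two maps to `B` are controlled homeomorphic: there are a locally trivial `π : E → [0,1]` and
an approximate fibration `H : E → B × [0,1]` over `[0,1]`, with the fibres over `0` and `1`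
homeomorphic to the domains and `H` restricting to the two given maps there. -/
def ControlledHomeo {M N : Type u} {B : Type v} [TopologicalSpace M] [TopologicalSpace N]
    [PseudoMetricSpace B] (p : M → B) (q : N → B) : Prop :=
  ∃ (E : Type u) (_ : TopologicalSpace E) (π : E → unitInterval) (H : E → B × unitInterval),
    LocTriv π ∧ (∀ e, (H e).2 = π e) ∧ IsApproxFib.{u, v, w} H ∧
    (∃ i : M ≃ₜ (π ⁻¹' {0} : Set E), ∀ m, (H (i m)).1 = p m) ∧
    (∃ j : N ≃ₜ (π ⁻¹' {1} : Set E), ∀ n, (H (j n)).1 = q n)

end Pool.Agent.Helper692_MAF
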