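import Mathlib

/-! Isotopies parametrised by the real line, and the extension of an isotopy parametrised by the
unit interval to one parametrised by the real line. -/

namespace Pool.Agent.Helper692_MAF

open Function Filter Topology Set

/-- A continuous family of self-homeomorphisms parametrised by the real line, starting with the
identity at time zero. -/
structure Isotopy (X : Type*) [TopologicalSpace X] where
  /-- the homeomorphisms -/
  map : ℝ → X ≃ₜ X
  cont : Continuous fun z : ℝ × X => map z.1 z.2
  cont_symm : Continuous fun z : ℝ × X => (map z.1).symm z.2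
  map_zero : ∀ x, map 0 x = x

namespace Isotopy

variable {X Y : Type*} [TopologicalSpace X] [TopologicalSpace Y]

/-- The product of an isotopy with the identity. -/
def prodId (t : Isotopy X) (Y : Type*) [TopologicalSpace Y] : Isotopy (X × Y) where
  map s := (t.map s).prodCongr (Homeomorph.refl Y)
  cont := by
    change Continuous fun z : ℝ × (X × Y) => (t.map z.1 z.2.1, z.2.2)
    exact (t.cont.comp (continuous_fst.prodMk (continuous_fst.comp continuous_snd))).prodMk
      (continuous_snd.comp continuous_snd)
  cont_symm := by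
    change Continuous fun z : ℝ × (X × Y) => ((t.map z.1).symm z.2.1, z.2.2)
    exact (t.cont_symm.comp (continuous_fst.prodMk (continuous_fst.comp continuous_snd))).prodMk
      (continuous_snd.comp continuous_snd)
  map_zero x := by
    change (t.map 0 x.1, x.2) = x
    rw [t.map_zero]

@[simp] lemma prodId_map (t : Isotopy X) (s : ℝ) (x : X × Y) :
    (t.prodId Y).map s x = (t.map s x.1, x.2) := rfl

/-- The product of the identity with an isotopy. -/
def idProd (t : Isotopy X) (Y : Type*) [TopologicalSpace Y] : Isotopy (Y × X) where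
  map s := (Homeomorph.refl Y).prodCongr (t.map s)
  cont := by
    change Continuous fun z : ℝ × (Y × X) => (z.2.1, t.map z.1 z.2.2)
    exact (continuous_fst.comp continuous_snd).prodMk
      (t.cont.comp (continuous_fst.prodMk (continuous_snd.comp continuous_snd)))
  cont_symm := by
    change Continuous fun z : ℝ × (Y × X) => (z.2.1, (t.map z.1).symm z.2.2)
    exact (continuous_fst.comp continuous_snd).prodMk
      (t.cont_symm.comp (continuous_fst.prodMk (continuous_snd.comp continuous_snd)))
  map_zero x := by
    change (x.1, t.map 0 x.2) = x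
    rw [t.map_zero]

@[simp] lemma idProd_map (t : Isotopy X) (s : ℝ) (x : Y × X) :
    (t.idProd Y).map s x = (x.1, t.map s x.2) := rfl

/-- An isotopy of `Y` seen as an isotopy of `X` through a homeomorphism. -/
def pull (t : Isotopy Y) (h : X ≃ₜ Y) : Isotopy X where
  map s := (h.trans (t.map s)).trans h.symm
  cont := by
    change Continuous fun z : ℝ × X => h.symm (t.map z.1 (h z.2))
    exact h.symm.continuous.comp
      (t.cont.comp (continuous_fst.prodMk (h.continuous.comp continuous_snd)))
  cont_symm := by
    change Continuous fun z : ℝ × X => h.symm ((t.map z.1).symm (h z.2))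
    exact h.symm.continuous.comp
      (t.cont_symm.comp (continuous_fst.prodMk (h.continuous.comp continuous_snd)))
  map_zero x := by
    change h.symm (t.map 0 (h x)) = x
    rw [t.map_zero, h.symm_apply_apply]

lemma pull_map (t : Isotopy Y) (h : X ≃ₜ Y) (s : ℝ) (x : X) :
    h ((t.pull h).map s x) = t.map s (h x) := by
  change h (h.symm (t.map s (h x))) = _
  rw [h.apply_symm_apply]

/-- Change of the speed of an isotopy by a function which is constant along the isotopy. -/
def rescale (t : Isotopy X) (L : X → ℝ) (hL : Continuous L)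
    (hinv : ∀ s x, L (t.map s x) = L x) : Isotopy X where
  map s :=
    { toFun := fun x => t.map (L x * s) x
      invFun := fun x => (t.map (L x * s)).symm x
      left_inv := fun x => by
        change (t.map (L (t.map (L x * s) x) * s)).symm (t.map (L x * s) x) = x
        rw [hinv, Homeomorph.symm_apply_apply]
      right_inv := fun x => by
        change t.map (L ((t.map (L x * s)).symm x) * s) ((t.map (L x * s)).symm x) = x
        have h : L ((t.map (L x * s)).symm x) = L x := by
          conv_rhs => rw [← (t.map (L x * s)).apply_symm_apply x]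
          rw [hinv]
        rw [h, Homeomorph.apply_symm_apply]
      continuous_toFun := t.cont.comp ((hL.mul continuous_const).prodMk continuous_id)
      continuous_invFun := t.cont_symm.comp ((hL.mul continuous_const).prodMk continuous_id) }
  cont := by
    change Continuous fun z : ℝ × X => t.map (L z.2 * z.1) z.2
    exact t.cont.comp (((hL.comp continuous_snd).mul continuous_fst).prodMk continuous_snd)
  cont_symm := by
    change Continuous fun z : ℝ × X => (t.map (L z.2 * z.1)).symm z.2
    exact t.cont_symm.comp (((hL.comp continuous_snd).mul continuous_fst).prodMk continuous_snd)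
  map_zero x := by
    change t.map (L x * 0) x = x
    rw [mul_zero, t.map_zero]

@[simp] lemma rescale_map (t : Isotopy X) (L : X → ℝ) (hL : Continuous L)
    (hinv : ∀ s x, L (t.map s x) = L x) (s : ℝ) (x : X) :
    (t.rescale L hL hinv).map s x = t.map (L x * s) x := rfl

end Isotopy

section Ext

variable {X : Type*} [TopologicalSpace X]

lemma continuous_zpow_homeo (τ : X ≃ₜ X) (n : ℤ) : Continuous (fun x => (τ ^ n) x) :=
  (τ ^ n).continuous

/-- Extension of a family parametrised by the unit interval: the underlying maps. -/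
noncomputable def extMap (f : unitInterval → X ≃ₜ X) (y : ℝ) : X ≃ₜ X :=
  (f 1) ^ ⌊y⌋ * f (projIcc 0 1 zero_le_one (Int.fract y))

variable (f : unitInterval → X ≃ₜ X)

lemma extMap_add_one (y : ℝ) : extMap f (y + 1) = f 1 * extMap f y := by
  unfold extMap
  rw [Int.floor_add_one, Int.fract_add_one, add_comm, zpow_add, zpow_one, mul_assoc]

lemma extMap_of_mem (y : unitInterval) (h0 : f 0 = 1) : extMap f y = f y := by
  unfold extMap
  rcases eq_or_lt_of_le y.2.2 with h | h
  · have h1 : y = 1 := Subtype.ext h
    subst h1
    simp [h0]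
  · have h1 : Int.fract (y : ℝ) = y := Int.fract_eq_self.2 ⟨y.2.1, h⟩
    have h2 : ⌊(y : ℝ)⌋ = 0 := Int.floor_eq_zero_iff.2 ⟨y.2.1, h⟩
    rw [h2, h1, zpow_zero, one_mul, projIcc_val]

/-- the local formula for the extension -/
lemma extMap_local (h0 : f 0 = 1) (n : ℤ) (y : ℝ) (h1 : (n : ℝ) - 1 < y) (h2 : y < n + 1) :
    extMap f y = (f 1) ^ (n - 1) * f (projIcc 0 1 zero_le_one (y - n + 1)) *
      f (projIcc 0 1 zero_le_one (y - n)) := by
  unfold extMap
  rcases lt_or_ge y n with h | h
  · have h3 : ⌊y⌋ = n - 1 := by
      rw [Int.floor_eq_iff]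
      push_cast
      constructor <;> linarith
    have h4 : projIcc (0 : ℝ) 1 zero_le_one (y - n) = 0 :=
      projIcc_of_le_left _ (by linarith)
    have h5 : Int.fract y = y - n + 1 := by
      rw [Int.fract, h3]; push_cast; ring
    rw [h3, h4, h0, mul_one, h5]
  · have h3 : ⌊y⌋ = n := by
      rw [Int.floor_eq_iff]
      constructor <;> linarith
    have h4 : projIcc (0 : ℝ) 1 zero_le_one (y - n + 1) = 1 :=
      projIcc_of_right_le _ (by linarith)
    have h5 : Int.fract y = y - n := by
      rw [Int.fract, h3]
    rw [h3, h4, h5, ← zpow_add_one]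
    congr 2
    ring

/-- Extension of a family parametrised by the unit interval to the real line. -/
noncomputable def extIsotopy (h0 : f 0 = 1)
    (hc : Continuous fun z : unitInterval × X => f z.1 z.2)
    (hc' : Continuous fun z : unitInterval × X => (f z.1).symm z.2) : Isotopy X where
  map := extMap f
  cont := by
    rw [continuous_iff_continuousAt]
    rintro ⟨y₀, x₀⟩
    set n := ⌊y₀⌋ with hn
    have e1 : (fun z : ℝ × X => ((f 1) ^ (n - 1)) (f (projIcc 0 1 zero_le_one (z.1 - n + 1))
        (f (projIcc 0 1 zero_le_one (z.1 - n)) z.2))) =ᶠ[𝓝 (y₀, x₀)]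
        fun z : ℝ × X => extMap f z.1 z.2 := by
      have h1 : ∀ᶠ z : ℝ × X in 𝓝 (y₀, x₀), (n : ℝ) - 1 < z.1 :=
        (continuous_fst.tendsto (y₀, x₀)).eventually
          (lt_mem_nhds (by have := Int.floor_le y₀; simp only; linarith))
      have h2 : ∀ᶠ z : ℝ × X in 𝓝 (y₀, x₀), z.1 < n + 1 :=
        (continuous_fst.tendsto (y₀, x₀)).eventually
          (gt_mem_nhds (by have := Int.lt_floor_add_one y₀; simp only; linarith))
      filter_upwards [h1, h2] with z h1 h2
      rw [extMap_local f h0 n z.1 h1 h2]
      rfl
    refine ContinuousAt.congr (Continuous.continuousAt ?_) e1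
    refine ((f 1) ^ (n - 1)).continuous.comp (hc.comp (Continuous.prodMk ?_ (hc.comp
      (Continuous.prodMk ?_ continuous_snd))))
    · exact (continuous_projIcc (h := (zero_le_one : (0 : ℝ) ≤ 1))).comp (by fun_prop)
    · exact (continuous_projIcc (h := (zero_le_one : (0 : ℝ) ≤ 1))).comp (by fun_prop)
  cont_symm := by
    rw [continuous_iff_continuousAt]
    rintro ⟨y₀, x₀⟩
    set n := ⌊y₀⌋ with hn
    have e1 : (fun z : ℝ × X => (f (projIcc 0 1 zero_le_one (z.1 - n))).symm
        ((f (projIcc 0 1 zero_le_one (z.1 - n + 1))).symm (((f 1) ^ (n - 1)).symm z.2)))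
        =ᶠ[𝓝 (y₀, x₀)] fun z : ℝ × X => (extMap f z.1).symm z.2 := by
      have h1 : ∀ᶠ z : ℝ × X in 𝓝 (y₀, x₀), (n : ℝ) - 1 < z.1 :=
        (continuous_fst.tendsto (y₀, x₀)).eventually
          (lt_mem_nhds (by have := Int.floor_le y₀; simp only; linarith))
      have h2 : ∀ᶠ z : ℝ × X in 𝓝 (y₀, x₀), z.1 < n + 1 :=
        (continuous_fst.tendsto (y₀, x₀)).eventually
          (gt_mem_nhds (by have := Int.lt_floor_add_one y₀; simp only; linarith))
      filter_upwards [h1, h2] with z h1 h2
      rw [extMap_local f h0 n z.1 h1 h2]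
      rfl
    refine ContinuousAt.congr (Continuous.continuousAt ?_) e1
    refine hc'.comp (Continuous.prodMk ?_ (hc'.comp
      (Continuous.prodMk ?_ (((f 1) ^ (n - 1)).symm.continuous.comp continuous_snd))))
    · exact (continuous_projIcc (h := (zero_le_one : (0 : ℝ) ≤ 1))).comp (by fun_prop)
    · exact (continuous_projIcc (h := (zero_le_one : (0 : ℝ) ≤ 1))).comp (by fun_prop)
  map_zero x := by
    have := extMap_of_mem f 0 h0
    rw [show ((0 : unitInterval) : ℝ) = 0 from rfl] at this
    rw [this, h0]
    rfl

/-- If the members of the family cover the elements of a one parameter group, so do the members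
of the extension. -/
lemma extMap_cover {B : Type*} (P : X → B) (φ : ℝ → B → B)
    (hφ0 : ∀ b, φ 0 b = b) (hφ : ∀ s t b, φ (s + t) b = φ s (φ t b))
    (h : ∀ (s : unitInterval) x, P (f s x) = φ s (P x)) (y : ℝ) (x : X) :
    P (extMap f y x) = φ y (P x) := by
  have h1 : ∀ x, P (f 1 x) = φ 1 (P x) := fun x => h 1 x
  have h2 : ∀ (n : ℕ) x, P (((f 1) ^ n) x) = φ n (P x) := by
    intro n
    induction n with
    | zero => intro x; simp [hφ0]
    | succ n ih =>
      intro x
      rw [pow_succ, Homeomorph.mul_apply, ih, h1, ← hφ]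
      push_cast
      rfl
  have h3 : ∀ (n : ℤ) x, P (((f 1) ^ n) x) = φ n (P x) := by
    intro n x
    obtain ⟨k, rfl | rfl⟩ := n.eq_nat_or_neg
    · rw [zpow_natCast, h2]; rfl
    · set w := ((f 1) ^ (-(k : ℤ))) x with hw
      have h4 : x = ((f 1) ^ k) w := by
        rw [hw, ← Homeomorph.mul_apply, ← zpow_natCast, ← zpow_add, add_neg_cancel, zpow_zero]
        rfl
      rw [h4, h2, ← hφ]
      push_cast
      rw [neg_add_cancel, hφ0]
  unfold extMap
  rw [Homeomorph.mul_apply, h3, h, ← hφ]
  congr 1
  have h5 : projIcc (0 : ℝ) 1 zero_le_one (Int.fract y) =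
      ⟨Int.fract y, Int.fract_nonneg y, (Int.fract_lt_one y).le⟩ :=
    projIcc_of_mem _ _
  rw [h5]
  exact Int.floor_add_fract y

lemma extMap_inv {W : Type*} (ζ : X → W) (h : ∀ (s : unitInterval) x, ζ (f s x) = ζ x)
    (y : ℝ) (x : X) : ζ (extMap f y x) = ζ x :=
  extMap_cover f ζ (fun _ w => w) (fun _ => rfl) (fun _ _ _ => rfl) h y x

end Ext

end Pool.Agent.Helper692_MAF
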