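import Mathlib
import Pool.Agent.Helper692_MAF.Iso

/-! Split extensions by the real line and moves of `X × G` along an isotopy. -/

namespace Pool.Agent.Helper692_MAF

open Function Filter Topology Set

/-- A factorisation of a topological group as the product of a subgroup and a one-parameter
subgroup, with a coordinate `χ` which changes by a bounded amount under right multiplication by
the elements of a compact set. -/
structure Split (G : Type*) [Group G] [TopologicalSpace G] where
  /-- the coordinate -/
  χ : G → ℝ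
  /-- the one-parameter subgroup -/
  a : ℝ → G
  /-- the complementary subgroup -/
  ker : Subgroup G
  mem_ker : ∀ g, g ∈ ker ↔ χ g = 0
  χ_left : ∀ k ∈ ker, ∀ g, χ (k * g) = χ g
  χ_right : ∀ g s, χ (g * a s) = χ g + s
  a_add : ∀ s t, a (s + t) = a s * a t
  χ_cont : Continuous χ
  a_cont : Continuous a
  bdd : ∀ C : Set G, IsCompact C → ∃ c, ∀ g, ∀ x ∈ C, |χ (g * x) - χ g| ≤ c

namespace Split

variable {G : Type*} [Group G] [TopologicalSpace G] (sp : Split G)

@[simp] lemma χ_one : sp.χ 1 = 0 := (sp.mem_ker 1).1 (one_mem _)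

@[simp] lemma a_zero : sp.a 0 = 1 := by
  have := sp.a_add 0 0
  rw [add_zero] at this
  exact mul_eq_left.1 this.symm

lemma χ_a (s : ℝ) : sp.χ (sp.a s) = s := by
  have := sp.χ_right 1 s
  rwa [one_mul, χ_one, zero_add] at this

lemma a_neg_mul (s : ℝ) : sp.a (-s) * sp.a s = 1 := by
  rw [← sp.a_add, neg_add_cancel, sp.a_zero]

lemma a_mul_neg (s : ℝ) : sp.a s * sp.a (-s) = 1 := by
  rw [← sp.a_add, add_neg_cancel, sp.a_zero]

lemma mul_a_mem (g : G) : g * sp.a (-sp.χ g) ∈ sp.ker := by
  rw [sp.mem_ker, sp.χ_right, add_neg_cancel]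

end Split

section Clamp

/-- The truncation of `y` to `[0,l]`. -/
noncomputable def clampL (l y : ℝ) : ℝ := max 0 (min y l)

lemma continuous_clampL : Continuous fun z : ℝ × ℝ => clampL z.1 z.2 := by
  unfold clampL; fun_prop

lemma clampL_nonneg (l y : ℝ) : 0 ≤ clampL l y := le_max_left _ _

lemma clampL_le {l : ℝ} (hl : 0 ≤ l) (y : ℝ) : clampL l y ≤ l :=
  max_le hl (min_le_right _ _)

lemma clampL_of_nonpos {l y : ℝ} (hy : y ≤ 0) : clampL l y = 0 :=
  max_eq_left ((min_le_left _ _).trans hy)

lemma clampL_of_ge {l y : ℝ} (hl : 0 ≤ l) (hy : l ≤ y) : clampL l y = l := by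
  unfold clampL
  rw [min_eq_right hy, max_eq_right hl]

lemma clampL_of_mem {l y : ℝ} (h0 : 0 ≤ y) (hy : y ≤ l) : clampL l y = y := by
  unfold clampL
  rw [min_eq_left hy, max_eq_right h0]

lemma abs_clampL_sub_le (l y y' : ℝ) : |clampL l y - clampL l y'| ≤ |y - y'| := by
  unfold clampL
  refine (abs_max_sub_max_le_max 0 (min y l) 0 (min y' l)).trans ?_
  refine max_le (by simp) ?_
  refine (abs_min_sub_min_le_max y l y' l).trans ?_
  simp

/-- The speed of the first move. -/
noncomputable def lamA (l y : ℝ) : ℝ := l - clampL l (y / 2)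
/-- The speed of the inverse of the first move. -/
noncomputable def lamA' (l y : ℝ) : ℝ := l - clampL l (y - l)
/-- The speed of the second move. -/
noncomputable def lamB (l y : ℝ) : ℝ := clampL l (y - l)
/-- The speed of the inverse of the second move. -/
noncomputable def lamB' (l y : ℝ) : ℝ := clampL l ((y - l) / 2)

lemma continuous_lamA : Continuous fun z : ℝ × ℝ => lamA z.1 z.2 := by
  unfold lamA
  exact continuous_fst.sub (continuous_clampL.comp
    (continuous_fst.prodMk (continuous_snd.div_const 2)))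

lemma continuous_lamA' : Continuous fun z : ℝ × ℝ => lamA' z.1 z.2 := by
  unfold lamA'
  exact continuous_fst.sub (continuous_clampL.comp
    (continuous_fst.prodMk (continuous_snd.sub continuous_fst)))

lemma continuous_lamB : Continuous fun z : ℝ × ℝ => lamB z.1 z.2 := by
  unfold lamB
  exact continuous_clampL.comp (continuous_fst.prodMk (continuous_snd.sub continuous_fst))

lemma continuous_lamB' : Continuous fun z : ℝ × ℝ => lamB' z.1 z.2 := by
  unfold lamB'
  exact continuous_clampL.comp
    (continuous_fst.prodMk ((continuous_snd.sub continuous_fst).div_const 2))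

lemma lamA_inv {l : ℝ} (hl : 0 ≤ l) (y : ℝ) : lamA' l (y + lamA l y) = lamA l y := by
  unfold lamA' lamA
  rcases le_total y 0 with h | h
  · rw [clampL_of_nonpos (y := y / 2) (by linarith), clampL_of_nonpos (by linarith)]
  · rcases le_total (y / 2) l with h' | h'
    · rw [clampL_of_mem (y := y / 2) (by linarith) h',
        clampL_of_mem (y := y + (l - y / 2) - l) (by linarith) (by linarith)]
      ring
    · rw [clampL_of_ge hl h', clampL_of_ge hl (by linarith)]

lemma lamA_inv' {l : ℝ} (hl : 0 ≤ l) (y : ℝ) : lamA l (y - lamA' l y) = lamA' l y := by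
  unfold lamA' lamA
  rcases le_total y l with h | h
  · rw [clampL_of_nonpos (y := y - l) (by linarith), clampL_of_nonpos (by linarith)]
  · rcases le_total (y - l) l with h' | h'
    · rw [clampL_of_mem (y := y - l) (by linarith) h',
        clampL_of_mem (y := (y - (l - (y - l))) / 2) (by linarith) (by linarith)]
      ring
    · rw [clampL_of_ge hl h', clampL_of_ge hl (by linarith)]

lemma lamB_inv {l : ℝ} (hl : 0 ≤ l) (y : ℝ) : lamB' l (y + lamB l y) = lamB l y := by
  unfold lamB' lamB
  rcases le_total y l with h | h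
  · rw [clampL_of_nonpos (y := y - l) (by linarith), clampL_of_nonpos (by linarith)]
  · rcases le_total (y - l) l with h' | h'
    · rw [clampL_of_mem (y := y - l) (by linarith) h',
        clampL_of_mem (y := (y + (y - l) - l) / 2) (by linarith) (by linarith)]
      ring
    · rw [clampL_of_ge hl h', clampL_of_ge hl (by linarith)]

lemma lamB_inv' {l : ℝ} (hl : 0 ≤ l) (y : ℝ) : lamB l (y - lamB' l y) = lamB' l y := by
  unfold lamB' lamB
  rcases le_total y l with h | h
  · rw [clampL_of_nonpos (y := (y - l) / 2) (by linarith), clampL_of_nonpos (by linarith)]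
  · rcases le_total ((y - l) / 2) l with h' | h'
    · rw [clampL_of_mem (y := (y - l) / 2) (by linarith) h',
        clampL_of_mem (y := y - (y - l) / 2 - l) (by linarith) (by linarith)]
      ring
    · rw [clampL_of_ge hl h', clampL_of_ge hl (by linarith)]

/-- the two speeds add up to `l` -/
lemma lamA_add_lamB {l : ℝ} (hl : 0 ≤ l) (y : ℝ) :
    lamA l y + lamB l (y + lamA l y) = l := by
  unfold lamB lamA
  rcases le_total y 0 with h | h
  · rw [clampL_of_nonpos (y := y / 2) (by linarith), clampL_of_nonpos (by linarith)]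
    ring
  · rcases le_total (y / 2) l with h' | h'
    · rw [clampL_of_mem (y := y / 2) (by linarith) h',
        clampL_of_mem (y := y + (l - y / 2) - l) (by linarith) (by linarith)]
      ring
    · rw [clampL_of_ge hl h', clampL_of_ge hl (by linarith)]
      ring

end Clamp

section Moves

variable {G : Type*} [Group G] [TopologicalSpace G] [IsTopologicalGroup G]
variable {X : Type*} [TopologicalSpace X]

/-- Move `X × G` along the isotopy `t` in the first factor and along the one-parameter group in
the second factor, for a time which depends on the coordinate. -/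
def mv (sp : Split G) (t : Isotopy X) (L : X → ℝ) (hL : Continuous L)
    (hinv : ∀ s x, L (t.map s x) = L x) (lam lam' : ℝ → ℝ → ℝ)
    (hc : Continuous fun z : ℝ × ℝ => lam z.1 z.2)
    (hc' : Continuous fun z : ℝ × ℝ => lam' z.1 z.2)
    (h1 : ∀ x y, lam' (L x) (y + lam (L x) y) = lam (L x) y)
    (h2 : ∀ x y, lam (L x) (y - lam' (L x) y) = lam' (L x) y) : X × G ≃ₜ X × G where
  toFun z := (t.map (lam (L z.1) (-sp.χ z.2)) z.1, z.2 * sp.a (-lam (L z.1) (-sp.χ z.2)))
  invFun z := ((t.map (lam' (L z.1) (-sp.χ z.2))).symm z.1,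
    z.2 * sp.a (lam' (L z.1) (-sp.χ z.2)))
  left_inv := by
    rintro ⟨x, g⟩
    have e : lam' (L x) (- sp.χ (g * sp.a (-lam (L x) (-sp.χ g)))) = lam (L x) (-sp.χ g) := by
      rw [sp.χ_right, neg_add, neg_neg, h1]
    simp only [hinv]
    rw [e, Homeomorph.symm_apply_apply, mul_assoc, sp.a_neg_mul, mul_one]
  right_inv := by
    rintro ⟨x, g⟩
    have hL' : L ((t.map (lam' (L x) (-sp.χ g))).symm x) = L x := by
      conv_rhs => rw [← (t.map (lam' (L x) (-sp.χ g))).apply_symm_apply x]
      rw [hinv]
    have e : lam (L x) (- sp.χ (g * sp.a (lam' (L x) (-sp.χ g)))) = lam' (L x) (-sp.χ g) := by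
      rw [sp.χ_right, neg_add, ← sub_eq_add_neg, h2]
    simp only [hL']
    rw [e, Homeomorph.apply_symm_apply, mul_assoc, sp.a_mul_neg, mul_one]
  continuous_toFun := by
    have hlam : Continuous fun z : X × G => lam (L z.1) (-sp.χ z.2) :=
      hc.comp ((hL.comp continuous_fst).prodMk (sp.χ_cont.comp continuous_snd).neg)
    exact (t.cont.comp (hlam.prodMk continuous_fst)).prodMk
      (continuous_snd.mul (sp.a_cont.comp hlam.neg))
  continuous_invFun := by
    have hlam : Continuous fun z : X × G => lam' (L z.1) (-sp.χ z.2) :=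
      hc'.comp ((hL.comp continuous_fst).prodMk (sp.χ_cont.comp continuous_snd).neg)
    exact (t.cont_symm.comp (hlam.prodMk continuous_fst)).prodMk
      (continuous_snd.mul (sp.a_cont.comp hlam))

/-- Right multiplication in the second factor by the inverse of a function of the first one. -/
def shear (v : X → G) (hv : Continuous v) : X × G ≃ₜ X × G where
  toFun z := (z.1, z.2 * (v z.1)⁻¹)
  invFun z := (z.1, z.2 * v z.1)
  left_inv := by rintro ⟨x, g⟩; simp
  right_inv := by rintro ⟨x, g⟩; simp
  continuous_toFun := by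
    exact continuous_fst.prodMk (continuous_snd.mul (hv.comp continuous_fst).inv)
  continuous_invFun := by
    exact continuous_fst.prodMk (continuous_snd.mul (hv.comp continuous_fst))

end Moves

section Descent

/-- A homeomorphism of `A × K` commuting with left multiplication by `K` descends to `A`. -/
def dropK {A K : Type*} [TopologicalSpace A] [TopologicalSpace K] [Group K]
    (F : A × K ≃ₜ A × K) (hF : ∀ k z, F (z.1, k * z.2) = ((F z).1, k * (F z).2)) : A ≃ₜ A where
  toFun a := (F (a, 1)).1
  invFun a := (F.symm (a, 1)).1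
  left_inv a := by
    have h : F.symm ((F (a, 1)).1, 1) = (a, (F (a, 1)).2⁻¹) := by
      rw [F.symm_apply_eq]
      have := hF (F (a, 1)).2⁻¹ (a, 1)
      simp only [mul_one, inv_mul_cancel] at this
      exact this.symm
    change (F.symm ((F (a, 1)).1, 1)).1 = a
    rw [h]
  right_inv a := by
    have h : F ((F.symm (a, 1)).1, 1) = (a, (F.symm (a, 1)).2⁻¹) := by
      have := hF (F.symm (a, 1)).2⁻¹ (F.symm (a, 1))
      rw [inv_mul_cancel, F.apply_symm_apply] at this
      simpa using this
    change (F ((F.symm (a, 1)).1, 1)).1 = a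
    rw [h]
  continuous_toFun := continuous_fst.comp (F.continuous.comp
    (continuous_id.prodMk continuous_const))
  continuous_invFun := continuous_fst.comp (F.symm.continuous.comp
    (continuous_id.prodMk continuous_const))

variable {X : Type*} [TopologicalSpace X]

/-- The projection to the circle in the second factor. -/
def toCirc (z : X × ℝ) : X × UnitAddCircle := (z.1, (z.2 : UnitAddCircle))

lemma toCirc_openQuotient : IsOpenQuotientMap (toCirc : X × ℝ → X × UnitAddCircle) := by
  have h := (IsOpenQuotientMap.id (X := X)).prodMap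
    (QuotientAddGroup.isOpenQuotientMap_mk (N := AddSubgroup.zmultiples (1 : ℝ)))
  exact h

lemma toCirc_eq {z w : X × ℝ} (h : toCirc z = toCirc w) :
    z.1 = w.1 ∧ ∃ n : ℤ, w.2 = z.2 + n := by
  have h0 : (toCirc z).1 = (toCirc w).1 := by rw [h]
  have h1 : (toCirc z).2 = (toCirc w).2 := by rw [h]
  refine ⟨h0, ?_⟩
  change (z.2 : UnitAddCircle) = (w.2 : UnitAddCircle) at h1
  rw [QuotientAddGroup.eq] at h1
  obtain ⟨n, hn⟩ := AddSubgroup.mem_zmultiples_iff.1 h1
  refine ⟨n, ?_⟩
  simp at hn
  linarith

lemma int_periodic {Y : Type*} (f : ℝ → Y) (h : ∀ y, f (y + 1) = f y) (y : ℝ) (n : ℤ) :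
    f (y + n) = f y := by
  have := Function.Periodic.int_mul (f := f) (c := 1) h n y
  simpa using this

/-- A continuous function on `X × ℝ` with period one descends to `X × UnitAddCircle`. -/
lemma descend_fun {Y : Type*} [TopologicalSpace Y] (f : X × ℝ → Y) (hf : Continuous f)
    (h : ∀ x y, f (x, y + 1) = f (x, y)) :
    ∃ F : X × UnitAddCircle → Y, Continuous F ∧ ∀ z, F (toCirc z) = f z := by
  have hq := (toCirc_openQuotient (X := X)).isQuotientMap
  have h1 : ∀ z w : X × ℝ, toCirc z = toCirc w → f z = f w := by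
    rintro ⟨x, y⟩ ⟨x', y'⟩ hzw
    obtain ⟨h2, n, h3⟩ := toCirc_eq hzw
    simp only at h2 h3
    subst h2 h3
    exact (int_periodic (fun y => f (x, y)) (h x) y n).symm
  refine ⟨hq.lift (f := ⟨toCirc, hq.continuous⟩) ⟨f, hf⟩ (fun z w hzw => h1 z w hzw),
    ContinuousMap.continuous _, fun z => ?_⟩
  exact congrFun (congrArg DFunLike.coe
    (hq.lift_comp (f := ⟨toCirc, hq.continuous⟩) ⟨f, hf⟩ (fun z w hzw => h1 z w hzw))) z

/-- A homeomorphism of `X × ℝ` commuting with the unit translation descends. -/
lemma descend_homeo (F : X × ℝ ≃ₜ X × ℝ)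
    (h : ∀ x y, F (x, y + 1) = ((F (x, y)).1, (F (x, y)).2 + 1)) :
    ∃ g : X × UnitAddCircle ≃ₜ X × UnitAddCircle, ∀ z, g (toCirc z) = toCirc (F z) := by
  have hcirc : ∀ (x : X) (y : ℝ), toCirc (x, y + 1) = toCirc (x, y) := by
    intro x y
    unfold toCirc
    simp only [AddCircle.coe_add, AddCircle.coe_period, add_zero]
  have h' : ∀ x y, F.symm (x, y + 1) = ((F.symm (x, y)).1, (F.symm (x, y)).2 + 1) := by
    intro x y
    rw [F.symm_apply_eq, h]
    simp
  have hc : Continuous (toCirc : X × ℝ → X × UnitAddCircle) := toCirc_openQuotient.continuous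
  have hs : Surjective (toCirc : X × ℝ → X × UnitAddCircle) := toCirc_openQuotient.surjective
  obtain ⟨g, hg, hg'⟩ := descend_fun (fun z => toCirc (F z)) (hc.comp F.continuous) (by
    intro x y
    rw [h, hcirc])
  obtain ⟨k, hk, hk'⟩ := descend_fun (fun z => toCirc (F.symm z)) (hc.comp F.symm.continuous) (by
    intro x y
    rw [h', hcirc])
  have e1 : ∀ w, k (g w) = w := by
    intro w
    obtain ⟨z, rfl⟩ := hs w
    rw [hg', hk', F.symm_apply_apply]
  have e2 : ∀ w, g (k w) = w := by
    intro w
    obtain ⟨z, rfl⟩ := hs w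
    rw [hk', hg', F.apply_symm_apply]
  exact ⟨⟨⟨g, k, e1, e2⟩, hg, hk⟩, hg'⟩

lemma dist_coe_circle_le (y y' : ℝ) : dist (y : UnitAddCircle) (y' : UnitAddCircle) ≤ |y - y'| := by
  rw [dist_eq_norm, ← AddCircle.coe_sub]
  exact QuotientAddGroup.norm_mk_le_norm

end Descent

end Pool.Agent.Helper692_MAF
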