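import Mathlib
import Pool.Agent.Helper692_MAF.Conj
import Pool.Agent.Helper692_MAF.Split

/-! The stage: a homeomorphism which changes two maps to a `G`-space by a `G`-valued function is
improved, after a product with the circle, to one which changes them by a function with values in
the kernel of a homomorphism to the reals. -/

namespace Pool.Agent.Helper692_MAF

open Function Filter Topology Set

/-- A speed, depending on a scale and on a coordinate, and the corresponding inverse speed. -/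
structure Speed where
  /-- the speed -/
  f : ℝ → ℝ → ℝ
  /-- the speed of the inverse -/
  f' : ℝ → ℝ → ℝ
  hc : Continuous fun z : ℝ × ℝ => f z.1 z.2
  hc' : Continuous fun z : ℝ × ℝ => f' z.1 z.2
  h1 : ∀ l, 0 ≤ l → ∀ y, f' l (y + f l y) = f l y
  h2 : ∀ l, 0 ≤ l → ∀ y, f l (y - f' l y) = f' l y

/-- The speed of the first move. -/
noncomputable def spA : Speed where
  f := lamA
  f' := lamA'
  hc := continuous_lamA
  hc' := continuous_lamA'
  h1 _ hl y := lamA_inv hl y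
  h2 _ hl y := lamA_inv' hl y

/-- The speed of the second move. -/
noncomputable def spB : Speed where
  f := lamB
  f' := lamB'
  hc := continuous_lamB
  hc' := continuous_lamB'
  h1 _ hl y := lamB_inv hl y
  h2 _ hl y := lamB_inv' hl y

/-- The constant speed. -/
def spL : Speed where
  f l _ := l
  f' l _ := l
  hc := continuous_fst
  hc' := continuous_fst
  h1 _ _ _ := rfl
  h2 _ _ _ := rfl

/-- The data of a stage. -/
structure StageData (X G B W J : Type*) [TopologicalSpace X] [Group G] [TopologicalSpace G]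
    [MulAction G B] [PseudoMetricSpace W] where
  /-- the splitting -/
  sp : Split G
  /-- the first map -/
  P : X → B
  /-- the second map -/
  Q : X → B
  /-- the isotopy over the first map -/
  tP : Isotopy X
  /-- the isotopy over the second map -/
  tQ : Isotopy X
  /-- passive coordinate for the first map -/
  ζP : X → W
  /-- passive coordinate for the second map -/
  ζQ : X → W
  /-- parameter -/
  ι : X → J
  /-- the change -/
  v : X → G
  /-- the scale -/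
  L : J → ℝ
  /-- bound of the change -/
  C : J → ℝ
  /-- bound of the distance of the passive coordinates -/
  δ : J → ℝ
  hP : ∀ s x, P (tP.map s x) = sp.a s • P x
  hQ : ∀ s x, Q (tQ.map s x) = sp.a s • Q x
  hζP : ∀ s x, ζP (tP.map s x) = ζP x
  hζQ : ∀ s x, ζQ (tQ.map s x) = ζQ x
  hιP : ∀ s x, ι (tP.map s x) = ι x
  hιQ : ∀ s x, ι (tQ.map s x) = ι x
  hv : Continuous v
  hQv : ∀ x, Q x = v x • P x
  hL : Continuous (fun x => L (ι x))
  hC0 : ∀ j, 0 ≤ C j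
  hL1 : ∀ j, 1 ≤ L j
  hCL : ∀ j, 14 * C j ≤ L j
  hCv : ∀ x g, |sp.χ (g * (v x)⁻¹) - sp.χ g| ≤ C (ι x)
  hδ : ∀ x, dist (ζQ x) (ζP x) ≤ δ (ι x)

namespace StageData

variable {X G B W J : Type*} [TopologicalSpace X] [Group G] [TopologicalSpace G]
  [IsTopologicalGroup G] [MulAction G B] [PseudoMetricSpace W] (D : StageData X G B W J)

omit [IsTopologicalGroup G] in
lemma L_nonneg (j : J) : 0 ≤ D.L j := by linarith [D.hL1 j]

omit [IsTopologicalGroup G] in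
lemma L_pos (j : J) : 0 < D.L j := by linarith [D.hL1 j]

/-- moves on the side of the first map -/
def mP (σ : Speed) : X × G ≃ₜ X × G :=
  mv D.sp D.tP (fun x => D.L (D.ι x)) D.hL (fun s x => by rw [D.hιP]) σ.f σ.f' σ.hc σ.hc'
    (fun x y => σ.h1 _ (D.L_nonneg _) y) (fun x y => σ.h2 _ (D.L_nonneg _) y)

/-- the shear -/
def V : X × G ≃ₜ X × G := shear D.v D.hv

/-- moves on the side of the second map, before the shear -/
def nQ (σ : Speed) : X × G ≃ₜ X × G :=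
  mv D.sp D.tQ (fun x => D.L (D.ι x)) D.hL (fun s x => by rw [D.hιQ]) σ.f σ.f' σ.hc σ.hc'
    (fun x y => σ.h1 _ (D.L_nonneg _) y) (fun x y => σ.h2 _ (D.L_nonneg _) y)

/-- moves on the side of the second map -/
def mQ (σ : Speed) : X × G ≃ₜ X × G := D.V.trans ((D.nQ σ).trans D.V.symm)

/-- first coordinate -/
def yP (z : X × G) : ℝ := - D.sp.χ z.2

/-- second coordinate -/
def yQ (z : X × G) : ℝ := - D.sp.χ (z.2 * (D.v z.1)⁻¹)

/-- the scale as a function on `X × G` -/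
def l (z : X × G) : ℝ := D.L (D.ι z.1)

/-- the bound as a function on `X × G` -/
def c (z : X × G) : ℝ := D.C (D.ι z.1)

/-- the preserved map -/
def Φ (z : X × G) : B × J := (z.2 • D.P z.1, D.ι z.1)

lemma yP_V (z : X × G) : D.yP (D.V z) = D.yQ z := rfl

lemma mP_apply (σ : Speed) (z : X × G) :
    D.mP σ z = (D.tP.map (σ.f (D.l z) (D.yP z)) z.1, z.2 * D.sp.a (-σ.f (D.l z) (D.yP z))) :=
  rfl

lemma nQ_apply (σ : Speed) (z : X × G) :
    D.nQ σ z = (D.tQ.map (σ.f (D.l z) (D.yP z)) z.1, z.2 * D.sp.a (-σ.f (D.l z) (D.yP z))) :=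
  rfl

lemma V_mQ (σ : Speed) (z : X × G) : D.V (D.mQ σ z) = D.nQ σ (D.V z) := by
  change D.V (D.V.symm (D.nQ σ (D.V z))) = _
  rw [Homeomorph.apply_symm_apply]

lemma V_fst (z : X × G) : (D.V z).1 = z.1 := rfl

lemma mQ_fst (σ : Speed) (z : X × G) : (D.mQ σ z).1 = (D.nQ σ (D.V z)).1 := by
  rw [← V_mQ, V_fst]

lemma yP_mP (σ : Speed) (z : X × G) : D.yP (D.mP σ z) = D.yP z + σ.f (D.l z) (D.yP z) := by
  rw [mP_apply]
  change - D.sp.χ (z.2 * D.sp.a (-σ.f (D.l z) (D.yP z))) = _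
  rw [D.sp.χ_right]
  unfold yP
  ring

lemma yQ_mQ (σ : Speed) (z : X × G) : D.yQ (D.mQ σ z) = D.yQ z + σ.f (D.l z) (D.yQ z) := by
  rw [← yP_V, V_mQ, nQ_apply]
  change - D.sp.χ ((D.V z).2 * D.sp.a (-σ.f (D.l (D.V z)) (D.yP (D.V z)))) = _
  rw [D.sp.χ_right, yP_V]
  have h1 : D.l (D.V z) = D.l z := rfl
  have h2 : - D.sp.χ (D.V z).2 = D.yQ z := D.yP_V z
  rw [h1]
  linarith

lemma mP_ι (σ : Speed) (z : X × G) : D.ι (D.mP σ z).1 = D.ι z.1 := by
  rw [mP_apply, D.hιP]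

lemma mQ_ι (σ : Speed) (z : X × G) : D.ι (D.mQ σ z).1 = D.ι z.1 := by
  rw [mQ_fst, nQ_apply, D.hιQ, V_fst]

lemma mP_ζ (σ : Speed) (z : X × G) : D.ζP (D.mP σ z).1 = D.ζP z.1 := by
  rw [mP_apply, D.hζP]

lemma mQ_ζ (σ : Speed) (z : X × G) : D.ζQ (D.mQ σ z).1 = D.ζQ z.1 := by
  rw [mQ_fst, nQ_apply, D.hζQ, V_fst]

lemma Φ_mP (σ : Speed) (z : X × G) : D.Φ (D.mP σ z) = D.Φ z := by
  refine Prod.ext ?_ (D.mP_ι σ z)
  rw [mP_apply]
  change (z.2 * D.sp.a (-σ.f (D.l z) (D.yP z))) • D.P _ = z.2 • D.P z.1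
  rw [D.hP, smul_smul, mul_assoc, D.sp.a_neg_mul, mul_one]

lemma V_smul_Q (z : X × G) : (D.V z).2 • D.Q (D.V z).1 = z.2 • D.P z.1 := by
  change (z.2 * (D.v z.1)⁻¹) • D.Q z.1 = _
  rw [D.hQv, smul_smul, mul_assoc, inv_mul_cancel, mul_one]

lemma Φ_mQ (σ : Speed) (z : X × G) : D.Φ (D.mQ σ z) = D.Φ z := by
  refine Prod.ext ?_ (D.mQ_ι σ z)
  change (D.mQ σ z).2 • D.P (D.mQ σ z).1 = z.2 • D.P z.1
  rw [← V_smul_Q, V_mQ, nQ_apply, ← V_smul_Q]
  change ((D.V z).2 * D.sp.a _) • D.Q _ = _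
  rw [D.hQ, smul_smul, mul_assoc, D.sp.a_neg_mul, mul_one]

lemma mP_comm (σ : Speed) (k : D.sp.ker) (z : X × G) :
    D.mP σ (z.1, k * z.2) = ((D.mP σ z).1, k * (D.mP σ z).2) := by
  have h : D.yP (z.1, k * z.2) = D.yP z := by
    change - D.sp.χ (k * z.2) = - D.sp.χ z.2
    rw [D.sp.χ_left _ k.2]
  rw [mP_apply, mP_apply, h]
  exact Prod.ext rfl (mul_assoc _ _ _)

lemma nQ_comm (σ : Speed) (k : D.sp.ker) (z : X × G) :
    D.nQ σ (z.1, k * z.2) = ((D.nQ σ z).1, k * (D.nQ σ z).2) := by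
  have h : D.yP (z.1, k * z.2) = D.yP z := by
    change - D.sp.χ (k * z.2) = - D.sp.χ z.2
    rw [D.sp.χ_left _ k.2]
  rw [nQ_apply, nQ_apply, h]
  exact Prod.ext rfl (mul_assoc _ _ _)

lemma V_comm (k : D.sp.ker) (z : X × G) :
    D.V (z.1, k * z.2) = ((D.V z).1, k * (D.V z).2) :=
  Prod.ext rfl (mul_assoc _ _ _)

lemma V_symm_comm (k : D.sp.ker) (z : X × G) :
    D.V.symm (z.1, k * z.2) = ((D.V.symm z).1, k * (D.V.symm z).2) :=
  Prod.ext rfl (mul_assoc _ _ _)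

lemma mQ_comm (σ : Speed) (k : D.sp.ker) (z : X × G) :
    D.mQ σ (z.1, k * z.2) = ((D.mQ σ z).1, k * (D.mQ σ z).2) := by
  change D.V.symm (D.nQ σ (D.V (z.1, k * z.2))) = _
  rw [V_comm, nQ_comm, V_symm_comm]
  rfl

lemma mP_congr (σ τ : Speed) (z : X × G) (h : σ.f (D.l z) (D.yP z) = τ.f (D.l z) (D.yP z)) :
    D.mP σ z = D.mP τ z := by
  rw [mP_apply, mP_apply, h]

lemma mP_zero (σ : Speed) (z : X × G) (h : σ.f (D.l z) (D.yP z) = 0) : D.mP σ z = z := by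
  rw [mP_apply, h, D.tP.map_zero, neg_zero, D.sp.a_zero, mul_one]

lemma mQ_congr (σ τ : Speed) (z : X × G) (h : σ.f (D.l z) (D.yQ z) = τ.f (D.l z) (D.yQ z)) :
    D.mQ σ z = D.mQ τ z := by
  apply D.V.injective
  rw [V_mQ, V_mQ, nQ_apply, nQ_apply, yP_V, show D.l (D.V z) = D.l z from rfl, h]

lemma mQ_zero (σ : Speed) (z : X × G) (h : σ.f (D.l z) (D.yQ z) = 0) : D.mQ σ z = z := by
  apply D.V.injective
  rw [V_mQ, nQ_apply, yP_V, show D.l (D.V z) = D.l z from rfl, h, D.tQ.map_zero, neg_zero,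
    D.sp.a_zero, mul_one]

lemma l_congr {z w : X × G} (h : D.ι z.1 = D.ι w.1) : D.l z = D.l w := by
  unfold l; rw [h]

lemma c_congr {z w : X × G} (h : D.ι z.1 = D.ι w.1) : D.c z = D.c w := by
  unfold c; rw [h]

lemma c_nonneg (z : X × G) : 0 ≤ D.c z := D.hC0 _

lemma l_pos (z : X × G) : 0 < D.l z := D.L_pos _

lemma c_le_l (z : X × G) : 14 * D.c z ≤ D.l z := D.hCL _

lemma yQ_yP (z : X × G) : |D.yQ z - D.yP z| ≤ D.c z := by
  have h : D.yQ z - D.yP z = -(D.sp.χ (z.2 * (D.v z.1)⁻¹) - D.sp.χ z.2) := by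
    unfold yQ yP; ring
  rw [h, abs_neg]
  exact D.hCv _ _

/-- the interpolating homeomorphism -/
noncomputable def S : X × G ≃ₜ X × G := (D.mP spA).trans (D.mQ spB)

lemma S_apply (z : X × G) : D.S z = D.mQ spB (D.mP spA z) := rfl

lemma S_ι (z : X × G) : D.ι (D.S z).1 = D.ι z.1 := by
  rw [S_apply, mQ_ι, mP_ι]

lemma Φ_S (z : X × G) : D.Φ (D.S z) = D.Φ z := by
  rw [S_apply, Φ_mQ, Φ_mP]

lemma S_comm (k : D.sp.ker) (z : X × G) :
    D.S (z.1, k * z.2) = ((D.S z).1, k * (D.S z).2) := by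
  rw [S_apply, mP_comm, S_apply, mQ_comm]

lemma yP_S (z : X × G) : |D.yP (D.S z) - D.yP z - D.l z| ≤ 3 * D.c z := by
  set z₁ := D.mP spA z with hz₁
  set z₂ := D.mQ spB z₁ with hz₂
  have hS : D.S z = z₂ := rfl
  have i1 : D.ι z₁.1 = D.ι z.1 := D.mP_ι _ _
  have i2 : D.ι z₂.1 = D.ι z.1 := by rw [hz₂, mQ_ι, i1]
  have h1 : D.yP z₁ = D.yP z + lamA (D.l z) (D.yP z) := D.yP_mP _ _
  have h2 : D.yQ z₂ = D.yQ z₁ + lamB (D.l z) (D.yQ z₁) := by
    rw [hz₂, yQ_mQ, D.l_congr i1]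
    rfl
  have h3 := D.yQ_yP z₁
  have h4 := D.yQ_yP z₂
  rw [D.c_congr i1] at h3
  rw [D.c_congr i2] at h4
  have h5 : |lamB (D.l z) (D.yQ z₁) - lamB (D.l z) (D.yP z₁)| ≤ D.c z := by
    unfold lamB
    refine (abs_clampL_sub_le _ _ _).trans ?_
    rw [sub_sub_sub_cancel_right]
    exact h3
  have h6 := lamA_add_lamB (D.l_pos z).le (D.yP z)
  rw [← h1] at h6
  rw [hS]
  rw [abs_le] at *
  constructor <;> linarith

lemma S_ζ (z : X × G) : dist (D.ζP (D.S z).1) (D.ζP z.1) ≤ 2 * D.δ (D.ι z.1) := by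
  have h1 := D.hδ (D.mP spA z).1
  rw [mP_ι, mP_ζ] at h1
  have h2 := D.hδ (D.S z).1
  rw [S_ι, S_apply, mQ_ζ, ← S_apply] at h2
  calc dist (D.ζP (D.S z).1) (D.ζP z.1)
      ≤ dist (D.ζP (D.S z).1) (D.ζQ (D.mP spA z).1) + dist (D.ζQ (D.mP spA z).1) (D.ζP z.1) :=
        dist_triangle _ _ _
    _ ≤ D.δ (D.ι z.1) + D.δ (D.ι z.1) := by
        rw [dist_comm (D.ζP (D.S z).1)]
        exact add_le_add h2 h1
    _ = 2 * D.δ (D.ι z.1) := by ring

lemma S_iter_ι (k : ℕ) (z : X × G) : D.ι (D.S^[k] z).1 = D.ι z.1 := by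
  induction k with
  | zero => rfl
  | succ k ih => rw [Function.iterate_succ_apply', S_ι, ih]

lemma yP_S_iter (k : ℕ) (z : X × G) :
    |D.yP (D.S^[k] z) - D.yP z - k * D.l z| ≤ 3 * k * D.c z := by
  induction k with
  | zero => simp
  | succ k ih =>
    rw [Function.iterate_succ_apply']
    have h := D.yP_S (D.S^[k] z)
    rw [D.l_congr (D.S_iter_ι k z), D.c_congr (D.S_iter_ι k z)] at h
    push_cast
    rw [abs_le] at *
    constructor <;> linarith

lemma ζ_S_iter (k : ℕ) (z : X × G) :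
    dist (D.ζP (D.S^[k] z).1) (D.ζP z.1) ≤ 2 * k * D.δ (D.ι z.1) := by
  induction k with
  | zero => simp
  | succ k ih =>
    rw [Function.iterate_succ_apply']
    have h := D.S_ζ (D.S^[k] z)
    rw [D.S_iter_ι k z] at h
    push_cast
    calc _ ≤ _ := dist_triangle _ (D.ζP (D.S^[k] z).1) _
      _ ≤ _ := add_le_add h ih
      _ = _ := by ring

/-- the normalised coordinate -/
noncomputable def ξ (z : X × G) : ℝ := D.yP z / D.l z

lemma continuous_ξ : Continuous D.ξ := by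
  unfold ξ
  refine Continuous.div ?_ ?_ (fun z => (D.l_pos z).ne')
  · exact (D.sp.χ_cont.comp continuous_snd).neg
  · exact D.hL.comp continuous_fst

lemma le_ξ {z : X × G} {r : ℝ} : r ≤ D.ξ z ↔ r * D.l z ≤ D.yP z := le_div_iff₀ (D.l_pos z)

lemma ξ_le {z : X × G} {r : ℝ} : D.ξ z ≤ r ↔ D.yP z ≤ r * D.l z := div_le_iff₀ (D.l_pos z)

lemma ξ_mul (z : X × G) : D.ξ z * D.l z = D.yP z := div_mul_cancel₀ _ (D.l_pos z).ne'

lemma T₁_ξ (z : X × G) : D.ξ (D.mP spL z) = D.ξ z + 1 := by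
  have h : D.yP (D.mP spL z) = D.yP z + D.l z := D.yP_mP _ _
  unfold ξ
  rw [h, D.l_congr (D.mP_ι _ z)]
  have := (D.l_pos z).ne'
  field_simp

lemma pushes_T₁ : Pushes D.ξ (1 / 2) (D.mP spL) := by
  intro z
  rw [T₁_ξ]
  linarith

lemma pushes_S : Pushes D.ξ (1 / 2) D.S := by
  intro z
  rw [le_ξ, D.l_congr (D.S_ι z)]
  have h := (abs_le.1 (D.yP_S z)).1
  have h1 := D.ξ_mul z
  have h2 := D.c_le_l z
  have h3 := D.c_nonneg z
  rw [add_mul, h1]
  linarith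

lemma yP_T₂ (z : X × G) : |D.yP (D.mQ spL z) - D.yP z - D.l z| ≤ 2 * D.c z := by
  have h1 : D.yQ (D.mQ spL z) = D.yQ z + D.l z := D.yQ_mQ _ _
  have h2 := D.yQ_yP z
  have h3 := D.yQ_yP (D.mQ spL z)
  rw [D.c_congr (D.mQ_ι _ z)] at h3
  rw [abs_le] at *
  constructor <;> linarith

lemma pushes_T₂ : Pushes D.ξ (1 / 2) (D.mQ spL) := by
  intro z
  rw [le_ξ, D.l_congr (D.mQ_ι _ z)]
  have h := (abs_le.1 (D.yP_T₂ z)).1
  have h1 := D.ξ_mul z
  have h2 := D.c_le_l z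
  have h3 := D.c_nonneg z
  rw [add_mul, h1]
  linarith

lemma T₂_le (z : X × G) : D.ξ (D.mQ spL z) ≤ D.ξ z + 2 := by
  rw [ξ_le, D.l_congr (D.mQ_ι _ z)]
  have h := (abs_le.1 (D.yP_T₂ z)).2
  have h1 := D.ξ_mul z
  have h2 := D.c_le_l z
  have h3 := D.c_nonneg z
  rw [add_mul, h1]
  linarith

lemma S_left (z : X × G) (h : D.ξ z ≤ -1) : D.S z = D.mP spL z := by
  rw [ξ_le] at h
  have h0 := D.l_pos z
  have h1 : D.mP spA z = D.mP spL z := by
    apply D.mP_congr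
    change lamA _ _ = D.l z
    unfold lamA
    rw [clampL_of_nonpos (by linarith), sub_zero]
  rw [S_apply, h1]
  apply D.mQ_zero
  change lamB _ _ = 0
  unfold lamB
  have h2 : D.yP (D.mP spL z) = D.yP z + D.l z := D.yP_mP _ _
  have h3 := (abs_le.1 (D.yQ_yP (D.mP spL z))).2
  have h4 := D.c_le_l z
  have h5 := D.c_nonneg z
  rw [D.c_congr (D.mP_ι _ z)] at h3
  rw [D.l_congr (D.mP_ι _ z)]
  exact clampL_of_nonpos (by linarith)

lemma S_right (z : X × G) (h : 3 ≤ D.ξ z) : D.S z = D.mQ spL z := by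
  rw [le_ξ] at h
  have h0 := D.l_pos z
  have h1 : D.mP spA z = z := by
    apply D.mP_zero
    change lamA _ _ = 0
    unfold lamA
    rw [clampL_of_ge h0.le (by linarith), sub_self]
  rw [S_apply, h1]
  apply D.mQ_congr
  change lamB _ _ = D.l z
  unfold lamB
  have h3 := (abs_le.1 (D.yQ_yP z)).1
  have h4 := D.c_le_l z
  have h5 := D.c_nonneg z
  exact clampL_of_ge h0.le (by linarith)

/-- left multiplication by an element of the kernel -/
def U (k : D.sp.ker) (z : X × G) : X × G := (z.1, k * z.2)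

lemma T₂_symm_ι (z : X × G) : D.ι ((D.mQ spL).symm z).1 = D.ι z.1 := by
  conv_rhs => rw [← (D.mQ spL).apply_symm_apply z]
  rw [mQ_ι]

lemma T₂_symm_ζ (z : X × G) : D.ζQ ((D.mQ spL).symm z).1 = D.ζQ z.1 := by
  conv_rhs => rw [← (D.mQ spL).apply_symm_apply z]
  rw [mQ_ζ]

lemma T₂_symm_yQ (z : X × G) : D.yQ ((D.mQ spL).symm z) = D.yQ z - D.l z := by
  have h : D.yQ (D.mQ spL ((D.mQ spL).symm z)) =
      D.yQ ((D.mQ spL).symm z) + D.l ((D.mQ spL).symm z) := D.yQ_mQ _ _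
  rw [(D.mQ spL).apply_symm_apply, D.l_congr (D.T₂_symm_ι z)] at h
  linarith

lemma T₂_symm_iter (k : ℕ) (z : X × G) : D.ι ((D.mQ spL).symm^[k] z).1 = D.ι z.1 ∧
    D.ζQ ((D.mQ spL).symm^[k] z).1 = D.ζQ z.1 ∧
    D.yQ ((D.mQ spL).symm^[k] z) = D.yQ z - k * D.l z := by
  induction k with
  | zero => simp
  | succ k ih =>
    obtain ⟨h1, h2, h3⟩ := ih
    rw [Function.iterate_succ_apply']
    refine ⟨by rw [T₂_symm_ι, h1], by rw [T₂_symm_ζ, h2], ?_⟩
    rw [T₂_symm_yQ, h3, D.l_congr h1]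
    push_cast
    ring

/-- The conjugating homeomorphism, with its estimates. -/
theorem exists_g : ∃ g : X × G ≃ₜ X × G, (∀ z, g (D.mP spL z) = D.mQ spL (g z)) ∧
    (∀ z, D.Φ (g z) = D.Φ z) ∧ (∀ k z, g (D.U k z) = D.U k (g z)) ∧
    (∀ z, |D.yQ (g z) - D.yP z| ≤ 28 * D.c z) ∧
    (∀ z, dist (D.ζQ (g z).1) (D.ζP z.1) ≤ 19 * D.δ (D.ι z.1)) := by
  obtain ⟨g, h1, h2, h3, h4⟩ := exists_conj_of_interpolation D.continuous_ξ
    (ρ := 1 / 2) (c := -1) (c' := 3) (D := 2) (by norm_num) D.pushes_T₁ D.pushes_S D.pushes_T₂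
    D.S_left D.S_right D.T₂_le D.Φ (D.Φ_mP spL) D.Φ_S (D.Φ_mQ spL) D.U
    (D.mP_comm spL) D.S_comm (D.mQ_comm spL) (by
      intro k z
      change (- D.sp.χ (k * z.2)) / D.l z = (- D.sp.χ z.2) / D.l z
      rw [D.sp.χ_left _ k.2])
  -- the estimates on the fundamental domain
  have h5 : ∀ z, -2 ≤ D.ξ z → D.ξ z ≤ -1 → |D.yQ (g z) - D.yP z| ≤ 28 * D.c z ∧
      dist (D.ζQ (g z).1) (D.ζP z.1) ≤ 19 * D.δ (D.ι z.1) := by
    intro z hz hz'
    have a1 := D.yP_S_iter 9 z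
    have a2 := D.S_iter_ι 9 z
    have a3 := D.ζ_S_iter 9 z
    have a4 : 3 + 2 ≤ D.ξ (D.S^[9] z) := by
      rw [le_ξ, D.l_congr a2]
      rw [le_ξ] at hz
      have b1 := (abs_le.1 a1).1
      have b2 := D.c_le_l z
      have b3 := D.c_nonneg z
      push_cast at b1
      linarith
    have a5 := h4 z 9 hz' a4
    obtain ⟨b1, b2, b3⟩ := D.T₂_symm_iter 9 (D.S^[9] z)
    rw [← a5] at b1 b2 b3
    rw [D.l_congr a2] at b3
    constructor
    · have b4 := D.yQ_yP (D.S^[9] z)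
      rw [D.c_congr a2] at b4
      rw [b3]
      push_cast at *
      rw [abs_le] at *
      constructor <;> linarith
    · rw [b2]
      have b4 := D.hδ (D.S^[9] z).1
      rw [a2] at b4
      push_cast at a3
      calc _ ≤ _ := dist_triangle _ (D.ζP (D.S^[9] z).1) _
        _ ≤ _ := add_le_add b4 a3
        _ = _ := by ring
  -- invariance of the estimates
  have h6 : ∀ z, (|D.yQ (g (D.mP spL z)) - D.yP (D.mP spL z)| ≤ 28 * D.c (D.mP spL z) ∧
      dist (D.ζQ (g (D.mP spL z)).1) (D.ζP (D.mP spL z).1) ≤ 19 * D.δ (D.ι (D.mP spL z).1)) ↔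
      (|D.yQ (g z) - D.yP z| ≤ 28 * D.c z ∧
      dist (D.ζQ (g z).1) (D.ζP z.1) ≤ 19 * D.δ (D.ι z.1)) := by
    intro z
    have a1 : D.yP (D.mP spL z) = D.yP z + D.l z := D.yP_mP _ _
    have a2 : D.yQ (D.mQ spL (g z)) = D.yQ (g z) + D.l (g z) := D.yQ_mQ _ _
    have a3 : D.ι (g z).1 = D.ι z.1 := congrArg Prod.snd (h2 z)
    rw [h1, a1, a2, D.l_congr a3, D.c_congr (D.mP_ι _ z), mQ_ζ, mP_ζ, mP_ι,
      add_sub_add_right_eq_sub]
  have h7 : ∀ z, |D.yQ (g z) - D.yP z| ≤ 28 * D.c z ∧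
      dist (D.ζQ (g z).1) (D.ζP z.1) ≤ 19 * D.δ (D.ι z.1) := by
    have b0 : ∀ (n : ℕ) (R : X × G → Prop), (∀ z, R (D.mP spL z) ↔ R z) → ∀ z,
        (R (((D.mP spL) ^ n) z) ↔ R z) := by
      intro n R hR
      induction n with
      | zero => intro z; rfl
      | succ n ih => intro z; rw [pow_succ, Homeomorph.mul_apply, ih, hR]
    have b1 : ∀ (n : ℤ) (R : X × G → Prop), (∀ z, R (D.mP spL z) ↔ R z) → ∀ z,
        (R (((D.mP spL) ^ n) z) ↔ R z) := by
      intro n R hR z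
      obtain ⟨k, rfl | rfl⟩ := n.eq_nat_or_neg
      · rw [zpow_natCast]; exact b0 k R hR z
      · have h4 : z = ((D.mP spL) ^ k) (((D.mP spL) ^ (-(k : ℤ))) z) := by
          rw [← Homeomorph.mul_apply, ← zpow_natCast, ← zpow_add, add_neg_cancel, zpow_zero]
          rfl
        conv_rhs => rw [h4]
        exact (b0 k R hR _).symm
    have b2 : ∀ (n : ℕ) z, D.ξ (((D.mP spL) ^ n) z) = D.ξ z + n := by
      intro n
      induction n with
      | zero => intro z; simp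
      | succ n ih =>
        intro z
        rw [pow_succ, Homeomorph.mul_apply, ih, T₁_ξ]
        push_cast
        ring
    have b3 : ∀ (n : ℤ) z, D.ξ (((D.mP spL) ^ n) z) = D.ξ z + n := by
      intro n z
      obtain ⟨k, rfl | rfl⟩ := n.eq_nat_or_neg
      · rw [zpow_natCast, b2]; rfl
      · have h4 : z = ((D.mP spL) ^ k) (((D.mP spL) ^ (-(k : ℤ))) z) := by
          rw [← Homeomorph.mul_apply, ← zpow_natCast, ← zpow_add, add_neg_cancel, zpow_zero]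
          rfl
        have h5 := b2 k (((D.mP spL) ^ (-(k : ℤ))) z)
        rw [← h4] at h5
        push_cast
        linarith
    intro z
    refine (b1 (-1 - ⌈D.ξ z⌉) (fun z => |D.yQ (g z) - D.yP z| ≤ 28 * D.c z ∧
      dist (D.ζQ (g z).1) (D.ζP z.1) ≤ 19 * D.δ (D.ι z.1)) h6 z).1 ?_
    have b4 := b3 (-1 - ⌈D.ξ z⌉) z
    have b5 := Int.ceil_lt_add_one (D.ξ z)
    have b6 := Int.le_ceil (D.ξ z)
    push_cast at b4
    exact h5 _ (by linarith) (by linarith)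
  exact ⟨g, h1, h2, h3, fun z => (h7 z).1, fun z => (h7 z).2⟩

end StageData

end Pool.Agent.Helper692_MAF
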