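import Mathlib
import Pool.Agent.Helper692_MAF.Stage

/-! The stage theorem: descent of the conjugating homeomorphism to `X × UnitAddCircle`. -/

namespace Pool.Agent.Helper692_MAF

open Function Filter Topology Set

section UnitExt

variable {X : Type*} [TopologicalSpace X]

/-- The extension to the real line of the restriction of an isotopy to the unit interval. -/
noncomputable def unitExt (t : Isotopy X) : Isotopy X :=
  extIsotopy (fun s : unitInterval => t.map s) (by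
    ext x
    exact t.map_zero x)
    (t.cont.comp ((continuous_subtype_val.comp continuous_fst).prodMk continuous_snd))
    (t.cont_symm.comp ((continuous_subtype_val.comp continuous_fst).prodMk continuous_snd))

lemma unitExt_add_one (t : Isotopy X) (y : ℝ) (x : X) :
    (unitExt t).map (y + 1) x = t.map 1 ((unitExt t).map y x) := by
  change extMap _ (y + 1) x = _
  rw [extMap_add_one]
  rfl

lemma unitExt_cover (t : Isotopy X) {B : Type*} (P : X → B) (φ : ℝ → B → B)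
    (hφ0 : ∀ b, φ 0 b = b) (hφ : ∀ s t b, φ (s + t) b = φ s (φ t b))
    (h : ∀ s x, P (t.map s x) = φ s (P x)) (y : ℝ) (x : X) :
    P ((unitExt t).map y x) = φ y (P x) :=
  extMap_cover _ P φ hφ0 hφ (fun s x => h s x) y x

lemma unitExt_inv (t : Isotopy X) {W : Type*} (ζ : X → W) (h : ∀ s x, ζ (t.map s x) = ζ x)
    (y : ℝ) (x : X) : ζ ((unitExt t).map y x) = ζ x :=
  extMap_inv _ ζ (fun s x => h s x) y x

end UnitExt

section Chart

variable {G : Type*} [Group G] [TopologicalSpace G] [IsTopologicalGroup G]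
variable {X : Type*} [TopologicalSpace X]

/-- The chart of `X × G` given by an isotopy. -/
noncomputable def chart (sp : Split G) (θ : Isotopy X) (L : X → ℝ) (hL : Continuous L)
    (hinv : ∀ s x, L (θ.map s x) = L x) (hpos : ∀ x, 0 < L x) :
    (X × ℝ) × sp.ker ≃ₜ X × G where
  toFun z := (θ.map z.1.2 z.1.1, z.2 * sp.a (-(L z.1.1 * z.1.2)))
  invFun w := (((θ.map (-sp.χ w.2 / L w.1)).symm w.1, -sp.χ w.2 / L w.1),
    ⟨w.2 * sp.a (-sp.χ w.2), sp.mul_a_mem _⟩)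
  left_inv := by
    rintro ⟨⟨x, y⟩, k, hk⟩
    have h0 := (hpos x).ne'
    have h1 : -sp.χ (k * sp.a (-(L x * y))) = L x * y := by
      rw [sp.χ_left _ hk, sp.χ_a]; ring
    have h2 : L x * y / L x = y := by field_simp
    simp only [hinv, h1, h2, Homeomorph.symm_apply_apply]
    refine Prod.ext rfl (Subtype.ext ?_)
    change k * sp.a (-(L x * y)) * sp.a (L x * y) = k
    rw [mul_assoc, sp.a_neg_mul, mul_one]
  right_inv := by
    rintro ⟨x, g⟩
    have h0 := (hpos x).ne'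
    have h3 : L ((θ.map (-sp.χ g / L x)).symm x) = L x := by
      conv_rhs => rw [← (θ.map (-sp.χ g / L x)).apply_symm_apply x]
      rw [hinv]
    have h4 : L x * (-sp.χ g / L x) = -sp.χ g := by field_simp
    simp only [h3, h4, Homeomorph.apply_symm_apply]
    refine Prod.ext rfl ?_
    change g * sp.a (-sp.χ g) * sp.a (- -sp.χ g) = g
    rw [mul_assoc, sp.a_mul_neg, mul_one]
  continuous_toFun := by
    refine Continuous.prodMk ?_ ?_
    · exact θ.cont.comp ((continuous_snd.comp continuous_fst).prodMk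
        (continuous_fst.comp continuous_fst))
    · exact (continuous_subtype_val.comp continuous_snd).mul (sp.a_cont.comp
        ((hL.comp (continuous_fst.comp continuous_fst)).mul
          (continuous_snd.comp continuous_fst)).neg)
  continuous_invFun := by
    have hy : Continuous fun w : X × G => -sp.χ w.2 / L w.1 :=
      (sp.χ_cont.comp continuous_snd).neg.div (hL.comp continuous_fst) (fun w => (hpos w.1).ne')
    refine Continuous.prodMk (Continuous.prodMk ?_ hy) ?_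
    · exact θ.cont_symm.comp (hy.prodMk continuous_fst)
    · exact Continuous.subtype_mk (continuous_snd.mul
        (sp.a_cont.comp (sp.χ_cont.comp continuous_snd).neg)) _

end Chart

namespace StageData

variable {X G B W J : Type*} [TopologicalSpace X] [Group G] [TopologicalSpace G]
  [IsTopologicalGroup G] [MulAction G B] [PseudoMetricSpace W] (D : StageData X G B W J)

/-- the rescaled isotopy over the first map -/
def rP : Isotopy X := D.tP.rescale (fun x => D.L (D.ι x)) D.hL (fun s x => by rw [D.hιP])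

/-- the rescaled isotopy over the second map -/
def rQ : Isotopy X := D.tQ.rescale (fun x => D.L (D.ι x)) D.hL (fun s x => by rw [D.hιQ])

lemma θP_ι (y : ℝ) (x : X) : D.ι ((unitExt D.rP).map y x) = D.ι x :=
  unitExt_inv D.rP D.ι (fun _ _ => D.hιP _ _) y x

lemma θQ_ι (y : ℝ) (x : X) : D.ι ((unitExt D.rQ).map y x) = D.ι x :=
  unitExt_inv D.rQ D.ι (fun _ _ => D.hιQ _ _) y x

lemma θP_ζ (y : ℝ) (x : X) : D.ζP ((unitExt D.rP).map y x) = D.ζP x :=
  unitExt_inv D.rP D.ζP (fun _ _ => D.hζP _ _) y x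

lemma θQ_ζ (y : ℝ) (x : X) : D.ζQ ((unitExt D.rQ).map y x) = D.ζQ x :=
  unitExt_inv D.rQ D.ζQ (fun _ _ => D.hζQ _ _) y x

lemma θP_P (y : ℝ) (x : X) :
    D.P ((unitExt D.rP).map y x) = D.sp.a (D.L (D.ι x) * y) • D.P x := by
  have h := unitExt_cover D.rP (fun x => (D.P x, D.ι x))
    (fun s b => (D.sp.a (D.L b.2 * s) • b.1, b.2))
    (fun b => by simp) (fun s t b => by
      simp only [mul_add, D.sp.a_add, mul_smul])
    (fun s x => Prod.ext (D.hP _ _) (D.hιP _ _)) y x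
  exact congrArg Prod.fst h

lemma θQ_Q (y : ℝ) (x : X) :
    D.Q ((unitExt D.rQ).map y x) = D.sp.a (D.L (D.ι x) * y) • D.Q x := by
  have h := unitExt_cover D.rQ (fun x => (D.Q x, D.ι x))
    (fun s b => (D.sp.a (D.L b.2 * s) • b.1, b.2))
    (fun b => by simp) (fun s t b => by
      simp only [mul_add, D.sp.a_add, mul_smul])
    (fun s x => Prod.ext (D.hQ _ _) (D.hιQ _ _)) y x
  exact congrArg Prod.fst h

/-- the chart on the side of the first map -/
noncomputable def EP : (X × ℝ) × D.sp.ker ≃ₜ X × G :=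
  chart D.sp (unitExt D.rP) (fun x => D.L (D.ι x)) D.hL (fun s x => by rw [D.θP_ι])
    (fun _ => D.L_pos _)

/-- the chart on the side of the second map before the shear -/
noncomputable def EQ' : (X × ℝ) × D.sp.ker ≃ₜ X × G :=
  chart D.sp (unitExt D.rQ) (fun x => D.L (D.ι x)) D.hL (fun s x => by rw [D.θQ_ι])
    (fun _ => D.L_pos _)

/-- the chart on the side of the second map -/
noncomputable def EQ : (X × ℝ) × D.sp.ker ≃ₜ X × G := D.EQ'.trans D.V.symm

lemma V_EQ (z : (X × ℝ) × D.sp.ker) : D.V (D.EQ z) = D.EQ' z := by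
  change D.V (D.V.symm (D.EQ' z)) = _
  rw [Homeomorph.apply_symm_apply]

lemma EP_apply (x : X) (y : ℝ) (k : D.sp.ker) :
    D.EP ((x, y), k) = ((unitExt D.rP).map y x, k * D.sp.a (-(D.L (D.ι x) * y))) := rfl

lemma EQ'_apply (x : X) (y : ℝ) (k : D.sp.ker) :
    D.EQ' ((x, y), k) = ((unitExt D.rQ).map y x, k * D.sp.a (-(D.L (D.ι x) * y))) := rfl

lemma EP_add_one (x : X) (y : ℝ) (k : D.sp.ker) :
    D.EP ((x, y + 1), k) = D.mP spL (D.EP ((x, y), k)) := by
  rw [EP_apply, EP_apply, mP_apply, unitExt_add_one]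
  refine Prod.ext ?_ ?_
  · change D.tP.map (D.L (D.ι _) * 1) _ = D.tP.map (D.L (D.ι _)) _
    rw [mul_one]
  · change _ = k * D.sp.a (-(D.L (D.ι x) * y)) * D.sp.a (-(D.L (D.ι ((unitExt D.rP).map y x))))
    rw [θP_ι, mul_assoc, ← D.sp.a_add]
    have e : -(D.L (D.ι x) * (y + 1)) = -(D.L (D.ι x) * y) + -(D.L (D.ι x)) := by ring
    rw [e]

lemma EQ_add_one (x : X) (y : ℝ) (k : D.sp.ker) :
    D.EQ ((x, y + 1), k) = D.mQ spL (D.EQ ((x, y), k)) := by
  apply D.V.injective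
  rw [V_EQ, V_mQ, V_EQ, EQ'_apply, EQ'_apply, nQ_apply, unitExt_add_one]
  refine Prod.ext ?_ ?_
  · change D.tQ.map (D.L (D.ι _) * 1) _ = D.tQ.map (D.L (D.ι _)) _
    rw [mul_one]
  · change _ = k * D.sp.a (-(D.L (D.ι x) * y)) * D.sp.a (-(D.L (D.ι ((unitExt D.rQ).map y x))))
    rw [θQ_ι, mul_assoc, ← D.sp.a_add]
    have e : -(D.L (D.ι x) * (y + 1)) = -(D.L (D.ι x) * y) + -(D.L (D.ι x)) := by ring
    rw [e]

lemma EP_comm (k : D.sp.ker) (z : (X × ℝ) × D.sp.ker) :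
    D.EP (z.1, k * z.2) = D.U k (D.EP z) := by
  obtain ⟨⟨x, y⟩, m⟩ := z
  rw [EP_apply, EP_apply]
  exact Prod.ext rfl (mul_assoc _ _ _)

lemma EQ_comm (k : D.sp.ker) (z : (X × ℝ) × D.sp.ker) :
    D.EQ (z.1, k * z.2) = D.U k (D.EQ z) := by
  obtain ⟨⟨x, y⟩, m⟩ := z
  apply D.V.injective
  have h : D.V (D.U k (D.EQ ((x, y), m))) = D.U k (D.V (D.EQ ((x, y), m))) := D.V_comm k _
  rw [h, V_EQ, V_EQ, EQ'_apply, EQ'_apply]
  exact Prod.ext rfl (mul_assoc _ _ _)

lemma Φ_EP (x : X) (y : ℝ) (k : D.sp.ker) :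
    D.Φ (D.EP ((x, y), k)) = (k • D.P x, D.ι x) := by
  rw [EP_apply]
  refine Prod.ext ?_ (D.θP_ι y x)
  change ((k : G) * D.sp.a (-(D.L (D.ι x) * y))) • D.P ((unitExt D.rP).map y x) = (k : G) • D.P x
  rw [θP_P, smul_smul, mul_assoc, D.sp.a_neg_mul, mul_one]

lemma Φ_EQ (x : X) (y : ℝ) (k : D.sp.ker) :
    D.Φ (D.EQ ((x, y), k)) = (k • D.Q x, D.ι x) := by
  have h0 : (D.EQ ((x, y), k)).1 = (unitExt D.rQ).map y x := by
    rw [← D.V_fst, V_EQ, EQ'_apply]
  refine Prod.ext ?_ ?_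
  · change (D.EQ ((x, y), k)).2 • D.P (D.EQ ((x, y), k)).1 = (k : G) • D.Q x
    rw [← V_smul_Q, V_EQ, EQ'_apply]
    change ((k : G) * D.sp.a (-(D.L (D.ι x) * y))) • D.Q ((unitExt D.rQ).map y x) = _
    rw [θQ_Q, smul_smul, mul_assoc, D.sp.a_neg_mul, mul_one]
  · change D.ι (D.EQ ((x, y), k)).1 = D.ι x
    rw [h0, θQ_ι]

lemma yP_EP (x : X) (y : ℝ) (k : D.sp.ker) :
    D.yP (D.EP ((x, y), k)) = D.L (D.ι x) * y := by
  rw [EP_apply]
  change - D.sp.χ (k * D.sp.a (-(D.L (D.ι x) * y))) = _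
  rw [D.sp.χ_left _ k.2, D.sp.χ_a]
  ring

lemma yQ_EQ (x : X) (y : ℝ) (k : D.sp.ker) :
    D.yQ (D.EQ ((x, y), k)) = D.L (D.ι x) * y := by
  rw [← yP_V, V_EQ, EQ'_apply]
  change - D.sp.χ (k * D.sp.a (-(D.L (D.ι x) * y))) = _
  rw [D.sp.χ_left _ k.2, D.sp.χ_a]
  ring

lemma EQ_fst (x : X) (y : ℝ) (k : D.sp.ker) :
    (D.EQ ((x, y), k)).1 = (unitExt D.rQ).map y x := by
  rw [← D.V_fst, V_EQ, EQ'_apply]

/-- The stage theorem. -/
theorem stage : ∃ (g : X × UnitAddCircle ≃ₜ X × UnitAddCircle)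
    (v' : X × UnitAddCircle → D.sp.ker), Continuous v' ∧
    (∀ z, D.Q (g z).1 = v' z • D.P z.1) ∧ (∀ z, D.ι (g z).1 = D.ι z.1) ∧
    (∀ z, dist (D.ζQ (g z).1) (D.ζP z.1) ≤ 19 * D.δ (D.ι z.1)) ∧
    (∀ z, dist (g z).2 z.2 ≤ 28 * D.C (D.ι z.1) / D.L (D.ι z.1)) := by
  obtain ⟨g, h1, h2, h3, h4, h5⟩ := D.exists_g
  let F : (X × ℝ) × D.sp.ker ≃ₜ (X × ℝ) × D.sp.ker := D.EP.trans (g.trans D.EQ.symm)
  have hF : ∀ z, D.EQ (F z) = g (D.EP z) := by
    intro z
    change D.EQ (D.EQ.symm (g (D.EP z))) = _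
    rw [Homeomorph.apply_symm_apply]
  have hFk : ∀ k z, F (z.1, k * z.2) = ((F z).1, k * (F z).2) := by
    intro k z
    apply D.EQ.injective
    rw [hF, EP_comm, h3, EQ_comm, hF]
  have hF1 : ∀ x y k, F ((x, y + 1), k) =
      (((F ((x, y), k)).1.1, (F ((x, y), k)).1.2 + 1), (F ((x, y), k)).2) := by
    intro x y k
    apply D.EQ.injective
    rw [hF, EP_add_one, h1, EQ_add_one]
    congr 1
    exact (hF _).symm
  let F₀ : X × ℝ ≃ₜ X × ℝ := dropK F hFk
  have hF₀ : ∀ x y, F₀ (x, y + 1) = ((F₀ (x, y)).1, (F₀ (x, y)).2 + 1) := by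
    intro x y
    change (F ((x, y + 1), 1)).1 = ((F ((x, y), 1)).1.1, (F ((x, y), 1)).1.2 + 1)
    rw [hF1]
  obtain ⟨g', hg'⟩ := descend_homeo F₀ hF₀
  have hcF : Continuous fun z : X × ℝ => (F (z, 1)).2⁻¹ :=
    (continuous_snd.comp (F.continuous.comp (continuous_id.prodMk continuous_const))).inv
  obtain ⟨v', hv', hv''⟩ := descend_fun (fun z : X × ℝ => (F (z, 1)).2⁻¹) hcF (by
    intro x y
    rw [hF1])
  -- the facts about `F`
  have hι : ∀ z, D.ι (F (z, 1)).1.1 = D.ι z.1 := by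
    rintro ⟨x, y⟩
    have a1 := D.Φ_EQ (F ((x, y), 1)).1.1 (F ((x, y), 1)).1.2 (F ((x, y), 1)).2
    have a2 := D.Φ_EP x y 1
    have a3 : D.EQ (((F ((x, y), 1)).1.1, (F ((x, y), 1)).1.2), (F ((x, y), 1)).2) =
      g (D.EP ((x, y), 1)) := hF _
    rw [a3, h2, a2] at a1
    exact (congrArg Prod.snd a1).symm
  have hQ : ∀ z, D.Q (F (z, 1)).1.1 = (F (z, 1)).2⁻¹ • D.P z.1 := by
    rintro ⟨x, y⟩
    have a1 := D.Φ_EQ (F ((x, y), 1)).1.1 (F ((x, y), 1)).1.2 (F ((x, y), 1)).2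
    have a2 := D.Φ_EP x y 1
    have a3 : D.EQ (((F ((x, y), 1)).1.1, (F ((x, y), 1)).1.2), (F ((x, y), 1)).2) =
      g (D.EP ((x, y), 1)) := hF _
    rw [a3, h2, a2] at a1
    have a4 : (1 : D.sp.ker) • D.P x = (F ((x, y), 1)).2 • D.Q (F ((x, y), 1)).1.1 :=
      congrArg Prod.fst a1
    rw [one_smul] at a4
    change _ = (F ((x, y), 1)).2⁻¹ • D.P x
    rw [a4, inv_smul_smul]
  have hζ : ∀ z, dist (D.ζQ (F (z, 1)).1.1) (D.ζP z.1) ≤ 19 * D.δ (D.ι z.1) := by
    rintro ⟨x, y⟩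
    have a1 := h5 (D.EP ((x, y), 1))
    have a3 : D.EQ (((F ((x, y), 1)).1.1, (F ((x, y), 1)).1.2), (F ((x, y), 1)).2) =
      g (D.EP ((x, y), 1)) := hF _
    rw [← a3, EQ_fst, θQ_ζ, EP_apply, θP_ζ, θP_ι] at a1
    exact a1
  have hy : ∀ z, |(F (z, 1)).1.2 - z.2| ≤ 28 * D.C (D.ι z.1) / D.L (D.ι z.1) := by
    rintro ⟨x, y⟩
    have a1 := h4 (D.EP ((x, y), 1))
    have a3 : D.EQ (((F ((x, y), 1)).1.1, (F ((x, y), 1)).1.2), (F ((x, y), 1)).2) =
      g (D.EP ((x, y), 1)) := hF _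
    have a4 : D.c (D.EP ((x, y), 1)) = D.C (D.ι x) := by
      unfold c
      rw [EP_apply, θP_ι]
    rw [← a3, yQ_EQ, yP_EP, hι, a4, ← mul_sub, abs_mul, abs_of_pos (D.L_pos _)] at a1
    rw [le_div_iff₀ (D.L_pos _), mul_comm]
    exact a1
  have hs : Surjective (toCirc : X × ℝ → X × UnitAddCircle) := toCirc_openQuotient.surjective
  refine ⟨g', v', hv', ?_, ?_, ?_, ?_⟩
  · intro w
    obtain ⟨z, rfl⟩ := hs w
    rw [hg', hv'']
    exact hQ z
  · intro w
    obtain ⟨z, rfl⟩ := hs w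
    rw [hg']
    exact hι z
  · intro w
    obtain ⟨z, rfl⟩ := hs w
    rw [hg']
    exact hζ z
  · intro w
    obtain ⟨z, rfl⟩ := hs w
    rw [hg']
    exact (dist_coe_circle_le _ _).trans (hy z)

end StageData

end Pool.Agent.Helper692_MAF
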