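import Mathlib
import Pool.Agent.Helper692_MAF.StageMain
import Pool.Agent.Helper692_MAF.Defs

/-! The induction over a chain of split extensions by the real line. -/

universe u v w

namespace Pool.Agent.Helper692_MAF

open Function Filter Topology Set

lemma RealChain.exists_split {n : ℕ} {G : Type u} [Group G] [TopologicalSpace G]
    (h : RealChain (n + 1) G) : ∃ sp : Split G, RealChain n sp.ker := by
  obtain ⟨H, ξ, a, hξ, ha, h1, h2, h3, h4, h5⟩ := h
  exact ⟨{ χ := ξ
           a := fun s => a (Multiplicative.ofAdd s)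
           ker := H
           mem_ker := h1
           χ_left := h2
           χ_right := h3
           a_add := fun s t => by rw [ofAdd_add, map_mul]
           χ_cont := hξ
           a_cont := ha.comp continuous_ofAdd
           bdd := h4 }, h5⟩

/-- All one-parameter subgroups of `G` lift through `P` to isotopies which preserve `η`. -/
def LiftsFlows (G : Type*) [Group G] [TopologicalSpace G] {X B H : Type*} [TopologicalSpace X]
    [MulAction G B] (P : X → B) (η : X → H) : Prop :=
  ∀ a : ℝ → G, Continuous a → (∀ s t, a (s + t) = a s * a t) →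
    ∃ t : Isotopy X, (∀ s x, P (t.map s x) = a s • P x) ∧ ∀ s x, η (t.map s x) = η x

lemma exists_cont_bound {X : Type*} (ι : X → ℝ) (R : X → ℝ → Prop)
    (hmono : ∀ x c d, c ≤ d → R x c → R x d)
    (hR : ∀ a b, ∃ c, ∀ x, ι x ∈ Icc a b → R x c) :
    ∃ C : ℝ → ℝ, Continuous C ∧ (∀ t, 0 ≤ C t) ∧ ∀ x, R x (C (ι x)) := by
  have hconv : ∀ t : ℝ, Convex ℝ {c : ℝ | 0 ≤ c ∧ ∀ x, ι x = t → R x c} := by
    intro t
    rw [convex_iff_ordConnected, ordConnected_iff]
    rintro c ⟨h1, h2⟩ d - - e ⟨h3, h4⟩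
    exact ⟨h1.trans h3, fun x hx => hmono x _ _ h3 (h2 x hx)⟩
  obtain ⟨C, hC⟩ := exists_continuous_forall_mem_convex_of_local_const hconv (by
    intro t
    obtain ⟨M, hM⟩ := hR (t - 1) (t + 1)
    refine ⟨max M 0, ?_⟩
    have h1 : ∀ᶠ s in 𝓝 t, t - 1 < s := lt_mem_nhds (by linarith)
    have h2 : ∀ᶠ s in 𝓝 t, s < t + 1 := gt_mem_nhds (by linarith)
    filter_upwards [h1, h2] with s h1 h2
    refine ⟨le_max_right _ _, fun x hx => hmono x _ _ (le_max_left _ _) (hM x ?_)⟩
    rw [hx]
    exact ⟨h1.le, h2.le⟩)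
  exact ⟨C, C.continuous, fun t => (hC t).1, fun x => (hC (ι x)).2 x rfl⟩

/-- Splitting off the first factor of a power. -/
def splitFirst (X : Type*) [TopologicalSpace X] (T : Type*) [TopologicalSpace T] (n : ℕ) :
    X × (Fin (n + 1) → T) ≃ₜ (X × T) × (Fin n → T) where
  toFun z := ((z.1, z.2 0), fun i => z.2 i.succ)
  invFun z := (z.1.1, Fin.cons z.1.2 z.2)
  left_inv z := by
    refine Prod.ext rfl ?_
    funext i
    refine Fin.cases ?_ (fun j => ?_) i <;> simp
  right_inv z := by simp
  continuous_toFun := by fun_prop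
  continuous_invFun := by
    refine (continuous_fst.comp continuous_fst).prodMk (continuous_pi fun i => ?_)
    refine Fin.cases ?_ (fun j => ?_) i
    · exact continuous_snd.comp continuous_fst
    · exact (continuous_apply j).comp continuous_snd

theorem induct (n : ℕ) : ∀ (G : Type u) [Group G] [TopologicalSpace G] [IsTopologicalGroup G]
    (_ : RealChain n G) (B : Type*) [MulAction G B] (W : Type w) [PseudoMetricSpace W]
    (X Y : Type v) [TopologicalSpace X] [TopologicalSpace Y] (P : X → B) (Q : Y → B)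
    (ζX : X → W) (ζY : Y → W) (ιX : X → ℝ) (ιY : Y → ℝ) (_ : Continuous ιX)
    (_ : ∀ a b, IsCompact (ιX ⁻¹' Icc a b))
    (_ : LiftsFlows G P (fun x => (ζX x, ιX x))) (_ : LiftsFlows G Q (fun y => (ζY y, ιY y)))
    (h : X ≃ₜ Y) (_ : ∀ x, ιY (h x) = ιX x) (v : X → G) (_ : Continuous v)
    (_ : ∀ x, Q (h x) = v x • P x) (δ : ℝ → ℝ) (_ : ∀ x, dist (ζY (h x)) (ζX x) ≤ δ (ιX x))
    (_ : Tendsto δ atTop (𝓝 0)),
    ∃ (g : X × (Fin n → UnitAddCircle) ≃ₜ Y × (Fin n → UnitAddCircle)) (δ' : ℝ → ℝ),
      Tendsto δ' atTop (𝓝 0) ∧ (∀ z, ιY (g z).1 = ιX z.1) ∧ (∀ z, Q (g z).1 = P z.1) ∧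
      (∀ z, dist (ζY (g z).1) (ζX z.1) ≤ δ' (ιX z.1)) ∧
      (∀ z, dist (g z).2 z.2 ≤ δ' (ιX z.1)) := by
  induction n with
  | zero =>
    intro G _ _ _ hG B _ W _ X Y _ _ P Q ζX ζY ιX ιY hιX hc hP hQ h hι v hv hQv δ hδ hδ0
    have hG' : Subsingleton G := hG
    refine ⟨h.prodCongr (Homeomorph.refl _), fun t => |δ t|, ?_, ?_, ?_, ?_, ?_⟩
    · simpa using hδ0.abs
    · intro z; exact hι z.1
    · intro z
      change Q (h z.1) = P z.1
      rw [hQv, Subsingleton.elim (v z.1) 1, one_smul]
    · intro z; exact (hδ z.1).trans (le_abs_self _)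
    · intro z
      change dist z.2 z.2 ≤ _
      rw [dist_self]
      exact abs_nonneg _
  | succ n ih =>
    intro G _ _ _ hG B _ W _ X Y _ _ P Q ζX ζY ιX ιY hιX hc hP hQ h hι v hv hQv δ hδ hδ0
    obtain ⟨sp, hK⟩ := hG.exists_split
    obtain ⟨tX, htX, htX'⟩ := hP sp.a sp.a_cont sp.a_add
    obtain ⟨tY, htY, htY'⟩ := hQ sp.a sp.a_cont sp.a_add
    obtain ⟨C, hC, hC0, hCv⟩ := exists_cont_bound ιX
      (fun x c => ∀ g, |sp.χ (g * (v x)⁻¹) - sp.χ g| ≤ c)
      (fun x c d hcd h g => (h g).trans hcd) (fun a b => by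
        obtain ⟨c, hc'⟩ := sp.bdd _ ((hc a b).image hv.inv)
        exact ⟨c, fun x hx g => hc' g _ ⟨x, hx, rfl⟩⟩)
    let L : ℝ → ℝ := fun t => 1 + 28 * C t * (1 + |t|)
    have hL : Continuous L := by
      change Continuous fun t : ℝ => 1 + 28 * C t * (1 + |t|)
      fun_prop
    have hCt : ∀ t : ℝ, 0 ≤ 28 * C t * |t| := fun t => by
      have := hC0 t
      positivity
    let D : StageData X G B W ℝ :=
      { sp := sp
        P := P
        Q := fun x => Q (h x)
        tP := tX
        tQ := tY.pull h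
        ζP := ζX
        ζQ := fun x => ζY (h x)
        ι := ιX
        v := v
        L := L
        C := C
        δ := δ
        hP := htX
        hQ := fun s x => by rw [Isotopy.pull_map, htY]
        hζP := fun s x => congrArg Prod.fst (htX' s x)
        hζQ := fun s x => by rw [Isotopy.pull_map]; exact congrArg Prod.fst (htY' s (h x))
        hιP := fun s x => congrArg Prod.snd (htX' s x)
        hιQ := fun s x => by
          rw [← hι, Isotopy.pull_map, ← hι]
          exact congrArg Prod.snd (htY' s (h x))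
        hv := hv
        hQv := hQv
        hL := hL.comp hιX
        hC0 := hC0
        hL1 := fun t => by
          have h1 := hC0 t
          have h2 := hCt t
          change 1 ≤ 1 + 28 * C t * (1 + |t|)
          linarith
        hCL := fun t => by
          have h1 := hC0 t
          have h2 := hCt t
          change 14 * C t ≤ 1 + 28 * C t * (1 + |t|)
          linarith
        hCv := hCv
        hδ := hδ }
    obtain ⟨g₁, v', hv', hg1, hg2, hg3, hg4⟩ := D.stage
    -- the new data
    have hKt : IsTopologicalGroup sp.ker := inferInstance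
    have lift1 : LiftsFlows sp.ker (fun z : X × UnitAddCircle => P z.1)
        (fun z => ((ζX z.1, z.2), ιX z.1)) := by
      intro a ha ha'
      obtain ⟨t, ht, ht'⟩ := hP (fun s => (a s : G)) (continuous_subtype_val.comp ha)
        (fun s t => by rw [ha']; rfl)
      refine ⟨t.prodId _, fun s x => ht s x.1, fun s x => ?_⟩
      have h1 := ht' s x.1
      have h2 : ζX (t.map s x.1) = ζX x.1 := congrArg Prod.fst h1
      have h3 : ιX (t.map s x.1) = ιX x.1 := congrArg Prod.snd h1
      simp only [Isotopy.prodId_map, h2, h3]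
    have lift2 : LiftsFlows sp.ker (fun z : Y × UnitAddCircle => Q z.1)
        (fun z => ((ζY z.1, z.2), ιY z.1)) := by
      intro a ha ha'
      obtain ⟨t, ht, ht'⟩ := hQ (fun s => (a s : G)) (continuous_subtype_val.comp ha)
        (fun s t => by rw [ha']; rfl)
      refine ⟨t.prodId _, fun s x => ht s x.1, fun s x => ?_⟩
      have h1 := ht' s x.1
      have h2 : ζY (t.map s x.1) = ζY x.1 := congrArg Prod.fst h1
      have h3 : ιY (t.map s x.1) = ιY x.1 := congrArg Prod.snd h1
      simp only [Isotopy.prodId_map, h2, h3]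
    have hc' : ∀ a b, IsCompact ((fun z : X × UnitAddCircle => ιX z.1) ⁻¹' Icc a b) := by
      intro a b
      have h1 : (fun z : X × UnitAddCircle => ιX z.1) ⁻¹' Icc a b = (ιX ⁻¹' Icc a b) ×ˢ univ := by
        ext z; simp
      rw [h1]
      exact (hc a b).prod isCompact_univ
    obtain ⟨g₂, δ₂, hδ₂, k1, k2, k3, k4⟩ := ih sp.ker hK B (W × UnitAddCircle)
      (X × UnitAddCircle) (Y × UnitAddCircle) (fun z => P z.1) (fun z => Q z.1)
      (fun z => (ζX z.1, z.2)) (fun z => (ζY z.1, z.2)) (fun z => ιX z.1) (fun z => ιY z.1)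
      (hιX.comp continuous_fst) hc' lift1 lift2 (g₁.trans (h.prodCongr (Homeomorph.refl _)))
      (fun z => by
        change ιY (h (g₁ z).1) = ιX z.1
        rw [hι]
        exact hg2 z) v' hv' hg1 (fun t => max (19 * δ t) (1 / (1 + |t|))) (by
        intro z
        change dist (ζY (h (g₁ z).1), (g₁ z).2) (ζX z.1, z.2) ≤ _
        rw [Prod.dist_eq]
        refine max_le_max (hg3 z) ((hg4 z).trans ?_)
        have h1 := hC0 (ιX z.1)
        have h2 := abs_nonneg (ιX z.1)
        change 28 * C (ιX z.1) / (1 + 28 * C (ιX z.1) * (1 + |ιX z.1|)) ≤ 1 / (1 + |ιX z.1|)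
        rw [div_le_div_iff₀ (by positivity) (by positivity)]
        linarith) (by
        have h1 : Tendsto (fun t => 19 * δ t) atTop (𝓝 0) := by simpa using hδ0.const_mul 19
        have h2 : Tendsto (fun t : ℝ => 1 / (1 + |t|)) atTop (𝓝 0) := by
          have h3 : Tendsto (fun t : ℝ => 1 + |t|) atTop atTop :=
            tendsto_atTop_add_const_left _ _ tendsto_abs_atTop_atTop
          have h4 : (fun t : ℝ => 1 / (1 + |t|)) = (fun t : ℝ => 1 + |t|)⁻¹ := by
            funext t
            simp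
          rw [h4]
          exact h3.inv_tendsto_atTop
        simpa using h1.max h2)
    refine ⟨(splitFirst X UnitAddCircle n).trans (g₂.trans (splitFirst Y UnitAddCircle n).symm),
      δ₂, hδ₂, fun z => k1 _, fun z => k2 _, fun z => ?_, fun z => ?_⟩
    · have h1 := k3 ((z.1, z.2 0), fun i => z.2 i.succ)
      rw [Prod.dist_eq] at h1
      exact (le_max_left _ _).trans h1
    · have h1 := k3 ((z.1, z.2 0), fun i => z.2 i.succ)
      have h2 := k4 ((z.1, z.2 0), fun i => z.2 i.succ)
      rw [Prod.dist_eq] at h1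
      have h0 : 0 ≤ δ₂ (ιX z.1) := dist_nonneg.trans h2
      refine (dist_pi_le_iff h0).2 fun i => ?_
      refine Fin.cases ?_ (fun j => ?_) i
      · exact (le_max_right _ _).trans h1
      · exact (dist_le_pi_dist _ _ j).trans h2

end Pool.Agent.Helper692_MAF
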