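import Mathlib
import Pool.Agent.Helper692_MAF.Defs
import Pool.Agent.Helper692_MAF.Cover
import Pool.Agent.Helper692_MAF.Induct

/-! The homotopy lifting property, and the approximate fibration obtained from a family of
homeomorphisms. -/

universe u v w

namespace Pool.Agent.Helper692_MAF

open Function Filter Topology Set

/-- The homotopy lifting property for all spaces. -/
def HLP {M : Type u} {B : Type v} [TopologicalSpace M] [TopologicalSpace B] (p : M → B) : Prop :=
  ∀ (X : Type w) [TopologicalSpace X] (f : X → M) (F : X × unitInterval → B),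
    Continuous f → Continuous F → (∀ x, F (x, 0) = p (f x)) →
      ∃ G : X × unitInterval → M, Continuous G ∧ (∀ x, G (x, 0) = f x) ∧ ∀ z, p (G z) = F z

section HLP

variable {M : Type u} {B : Type v} [TopologicalSpace M] [TopologicalSpace B] {p : M → B}

lemma HLP.prodMap_id (h : HLP.{u, v, w} p) (Y : Type*) [TopologicalSpace Y] :
    HLP.{_, _, w} (Prod.map p id : M × Y → B × Y) := by
  intro X _ f F hf hF hF0
  obtain ⟨G, hG, hG0, hG1⟩ := h X (fun x => (f x).1) (fun z => (F z).1)
    (continuous_fst.comp hf) (continuous_fst.comp hF) (fun x => congrArg Prod.fst (hF0 x))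
  refine ⟨fun z => (G z, (F z).2), hG.prodMk (continuous_snd.comp hF), fun x => ?_, fun z => ?_⟩
  · refine Prod.ext (hG0 x) ?_
    change (F (x, 0)).2 = (f x).2
    rw [hF0]
    rfl
  · exact Prod.ext (hG1 z) rfl

lemma HLP.comp_homeo (h : HLP.{u, v, w} p) {M' : Type*} [TopologicalSpace M'] (Ψ : M' ≃ₜ M) :
    HLP.{_, _, w} (fun m => p (Ψ m)) := by
  intro X _ f F hf hF hF0
  obtain ⟨G, hG, hG0, hG1⟩ := h X (fun x => Ψ (f x)) F (Ψ.continuous.comp hf) hF hF0
  refine ⟨fun z => Ψ.symm (G z), Ψ.symm.continuous.comp hG, fun x => ?_, fun z => ?_⟩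
  · change Ψ.symm (G (x, 0)) = f x
    rw [hG0, Ψ.symm_apply_apply]
  · change p (Ψ (Ψ.symm (G z))) = F z
    rw [Ψ.apply_symm_apply, hG1]

lemma HLP.homeo_comp {B' : Type*} [TopologicalSpace B'] (e : B' ≃ₜ B) {p' : M → B'}
    (h : HLP.{u, v, w} (fun m => e (p' m))) : HLP.{_, _, w} p' := by
  intro X _ f F hf hF hF0
  obtain ⟨G, hG, hG0, hG1⟩ := h X f (fun z => e (F z)) hf (e.continuous.comp hF)
    (fun x => by rw [hF0])
  exact ⟨G, hG, hG0, fun z => e.injective (hG1 z)⟩

end HLP

section Transport

/-- Transport in a space over a `G`-space in which all one-parameter subgroups lift. -/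
lemma exists_transport (n : ℕ) : ∀ (G : Type u) [Group G] [TopologicalSpace G]
    [IsTopologicalGroup G] (_ : RealChain n G) (B : Type*) [MulAction G B] (M : Type*)
    [TopologicalSpace M] (p : M → B) (_ : LiftsFlows G p (fun _ => ())),
    ∃ τ : G × M → M, Continuous τ ∧ (∀ m, τ (1, m) = m) ∧ ∀ g m, p (τ (g, m)) = g • p m := by
  induction n with
  | zero =>
    intro G _ _ _ hG B _ M _ p _
    have hG' : Subsingleton G := hG
    exact ⟨fun z => z.2, continuous_snd, fun _ => rfl, fun g m => by
      rw [Subsingleton.elim g 1, one_smul]⟩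
  | succ n ih =>
    intro G _ _ _ hG B _ M _ p h
    obtain ⟨sp, hK⟩ := hG.exists_split
    obtain ⟨t, ht, -⟩ := h sp.a sp.a_cont sp.a_add
    have hKt : IsTopologicalGroup sp.ker := inferInstance
    obtain ⟨τ, hτ, hτ1, hτ2⟩ := ih sp.ker hK B M p (by
      intro a ha ha'
      exact h (fun s => (a s : G)) (continuous_subtype_val.comp ha)
        (fun s t => by rw [ha']; rfl))
    let κ : G → sp.ker := fun g =>
      ⟨g * sp.a (-sp.χ g), sp.mul_a_mem g⟩
    have hκ : Continuous κ :=
      Continuous.subtype_mk (continuous_id.mul (sp.a_cont.comp sp.χ_cont.neg)) _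
    refine ⟨fun z => τ (κ z.1, t.map (sp.χ z.1) z.2), ?_, fun m => ?_, fun g m => ?_⟩
    · exact hτ.comp ((hκ.comp continuous_fst).prodMk
        (t.cont.comp ((sp.χ_cont.comp continuous_fst).prodMk continuous_snd)))
    · have h1 : κ 1 = 1 := Subtype.ext (by
        change (1 : G) * sp.a (-sp.χ 1) = 1
        rw [sp.χ_one, neg_zero, sp.a_zero, mul_one])
      change τ (κ 1, t.map (sp.χ 1) m) = m
      rw [h1, sp.χ_one, t.map_zero, hτ1]
    · change p (τ (κ g, t.map (sp.χ g) m)) = g • p m
      rw [hτ2, ht]
      change (g * sp.a (-sp.χ g)) • (sp.a (sp.χ g) • p m) = g • p m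
      rw [smul_smul, mul_assoc, sp.a_neg_mul, mul_one]

/-- Maps to `G ⧸ Γ` over which there is a transport have the homotopy lifting property. -/
lemma hlp_of_transport {G : Type*} [Group G] [TopologicalSpace G] [IsTopologicalGroup G]
    (Γ : Subgroup G) (hΓ : IsDiscrete (Γ : Set G)) {M : Type*} [TopologicalSpace M]
    (p : M → G ⧸ Γ) (τ : G × M → M) (hτ : Continuous τ) (hτ1 : ∀ m, τ (1, m) = m)
    (hτ2 : ∀ g m, p (τ (g, m)) = g • p m) : HLP.{_, _, w} p := by
  intro X _ f F hf hF hF0
  obtain ⟨u, hu, hu1, hu2⟩ := exists_mover Γ hΓ (fun z : unitInterval × X => F (z.2, z.1))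
    (hF.comp (continuous_snd.prodMk continuous_fst))
  refine ⟨fun z => τ (u (z.2, z.1), f z.1), ?_, fun x => ?_, fun z => ?_⟩
  · exact hτ.comp ((hu.comp (continuous_snd.prodMk continuous_fst)).prodMk
      (hf.comp continuous_fst))
  · change τ (u (0, x), f x) = f x
    rw [hu1, hτ1]
  · rw [hτ2, ← hF0]
    exact (hu2 z.2 z.1).symm

end Transport

section LocTriv

/-- A product projection is locally trivial. -/
lemma locTriv_of_homeo {E B F : Type*} [TopologicalSpace E] [TopologicalSpace B]
    [TopologicalSpace F] (h : E ≃ₜ B × F) (r : E → B) (hr : ∀ e, (h e).1 = r e) : LocTriv r := by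
  intro b
  have hs : ∀ b f, r (h.symm (b, f)) = b := fun b f => by rw [← hr, h.apply_symm_apply]
  let k : F ≃ₜ (r ⁻¹' {b} : Set E) :=
    { toFun := fun f => ⟨h.symm (b, f), hs b f⟩
      invFun := fun e => (h e).2
      left_inv := fun f => by simp
      right_inv := fun e => by
        apply Subtype.ext
        change h.symm (b, (h e).2) = e
        have h1 : r e = b := e.2
        have h2 : (b, (h (e : E)).2) = h (e : E) := Prod.ext (by rw [hr, h1]) rfl
        rw [h2, h.symm_apply_apply]
      continuous_toFun := Continuous.subtype_mk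
        (h.symm.continuous.comp (continuous_const.prodMk continuous_id)) _
      continuous_invFun := continuous_snd.comp (h.continuous.comp continuous_subtype_val) }
  let h' : E ≃ₜ B × (r ⁻¹' {b} : Set E) := h.trans ((Homeomorph.refl B).prodCongr k)
  refine ⟨{ h'.toOpenPartialHomeomorph with
    baseSet := univ
    open_baseSet := isOpen_univ
    source_eq := by simp
    target_eq := by simp
    proj_toFun := fun e _ => hr e }, mem_univ b⟩

end LocTriv

section Family

variable {M N : Type u} {B : Type v} {T : Type} [TopologicalSpace M] [TopologicalSpace N]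
  [CompactSpace N] [MetricSpace B] [NormedAddCommGroup T] [CompactSpace T]

/-- The change of parameter from `[0,1)` to `[0,∞)`. -/
noncomputable def par (t : ℝ) : ℝ := t / (1 - t)

lemma continuousAt_par {t : ℝ} (ht : t < 1) : ContinuousAt par t := by
  unfold par
  exact continuousAt_id.div (continuousAt_const.sub continuousAt_id) (by simp; linarith)

lemma le_par {t R : ℝ} (ht : t < 1) (hR : 0 ≤ R) (h : R / (1 + R) ≤ t) : R ≤ par t := by
  unfold par
  rw [le_div_iff₀ (by linarith)]
  rw [div_le_iff₀ (by linarith)] at h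
  linarith

/-- The homeomorphism given by the family and by a parameter function. -/
def famHomeo (g : (ℝ × M) × T ≃ₜ (ℝ × N) × T) (h1 : ∀ z, (g z).1.1 = z.1.1)
    (s : unitInterval → ℝ) (hs : Continuous s) :
    (N × T) × unitInterval ≃ₜ (M × T) × unitInterval where
  toFun z := (((g.symm ((s z.2, z.1.1), z.1.2)).1.2, (g.symm ((s z.2, z.1.1), z.1.2)).2), z.2)
  invFun z := (((g ((s z.2, z.1.1), z.1.2)).1.2, (g ((s z.2, z.1.1), z.1.2)).2), z.2)
  left_inv := by
    rintro ⟨⟨y, θ⟩, t⟩
    have h2 : (g.symm ((s t, y), θ)).1.1 = s t := by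
      rw [← h1, g.apply_symm_apply]
    have h3 : ((s t, (g.symm ((s t, y), θ)).1.2), (g.symm ((s t, y), θ)).2) =
        g.symm ((s t, y), θ) := Prod.ext (Prod.ext h2.symm rfl) rfl
    simp only [h3, g.apply_symm_apply]
  right_inv := by
    rintro ⟨⟨y, θ⟩, t⟩
    have h3 : ((s t, (g ((s t, y), θ)).1.2), (g ((s t, y), θ)).2) =
        g ((s t, y), θ) := Prod.ext (Prod.ext (h1 ((s t, y), θ)).symm rfl) rfl
    simp only [h3, g.symm_apply_apply]
  continuous_toFun := by
    have h3 : Continuous fun z : (N × T) × unitInterval => g.symm ((s z.2, z.1.1), z.1.2) :=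
      g.symm.continuous.comp (((hs.comp continuous_snd).prodMk
        (continuous_fst.comp continuous_fst)).prodMk (continuous_snd.comp continuous_fst))
    exact ((continuous_snd.comp (continuous_fst.comp h3)).prodMk
      (continuous_snd.comp h3)).prodMk continuous_snd
  continuous_invFun := by
    have h3 : Continuous fun z : (M × T) × unitInterval => g ((s z.2, z.1.1), z.1.2) :=
      g.continuous.comp (((hs.comp continuous_snd).prodMk
        (continuous_fst.comp continuous_fst)).prodMk (continuous_snd.comp continuous_fst))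
    exact ((continuous_snd.comp (continuous_fst.comp h3)).prodMk
      (continuous_snd.comp h3)).prodMk continuous_snd

theorem controlled_of_family (p : M → B) (q : N → B) (hp : HLP.{u, v, w} p) (hq : Continuous q)
    (g : (ℝ × M) × T ≃ₜ (ℝ × N) × T) (δ : ℝ → ℝ) (hδ : Tendsto δ atTop (𝓝 0))
    (h1 : ∀ z, (g z).1.1 = z.1.1) (h2 : ∀ z, q (g z).1.2 = p z.1.2)
    (h3 : ∀ z, dist (g z).2 z.2 ≤ δ z.1.1) :
    ControlledHomeo.{u, v, w} (fun z : M × T => (p z.1, z.2)) (fun z : N × T => (q z.1, z.2)) := by
  classical
  -- the torus coordinate at the parameter `r`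
  let ϑ : ℝ → N × T → T := fun r w => (g.symm ((r, w.1), w.2)).2
  have hϑc : Continuous fun z : ℝ × (N × T) => ϑ z.1 z.2 :=
    continuous_snd.comp (g.symm.continuous.comp ((continuous_fst.prodMk
      (continuous_fst.comp continuous_snd)).prodMk (continuous_snd.comp continuous_snd)))
  have hg1 : ∀ (r : ℝ) (w : N × T), (g.symm ((r, w.1), w.2)).1.1 = r := fun r w => by
    rw [← h1, g.apply_symm_apply]
  have hϑd : ∀ r w, dist (ϑ r w) w.2 ≤ δ r := by
    intro r w
    have h4 := h3 (g.symm ((r, w.1), w.2))
    rw [g.apply_symm_apply, hg1, dist_comm] at h4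
    exact h4
  have hgp : ∀ r (w : N × T), p (g.symm ((r, w.1), w.2)).1.2 = q w.1 := by
    intro r w
    rw [← h2, g.apply_symm_apply]
  let Θ : (N × T) × unitInterval → T := fun z =>
    if (z.2 : ℝ) < 1 then ϑ (par z.2) z.1 else z.1.2
  have hΘ1 : ∀ w (t : unitInterval), (t : ℝ) < 1 → Θ (w, t) = ϑ (par t) w := fun w t ht =>
    if_pos ht
  have hΘ2 : ∀ w (t : unitInterval), ¬ (t : ℝ) < 1 → Θ (w, t) = w.2 := fun w t ht => if_neg ht
  -- for every `e > 0` there is `R` such that the displacement is small after `R`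
  have hR : ∀ e > 0, ∃ R : ℝ, 0 ≤ R ∧ ∀ r, R ≤ r → ∀ w, dist (ϑ r w) w.2 < e := by
    intro e he
    have h4 : ∀ᶠ r in atTop, δ r < e := hδ.eventually (gt_mem_nhds he)
    obtain ⟨R, hR⟩ := eventually_atTop.1 h4
    exact ⟨max R 0, le_max_right _ _, fun r hr w =>
      (hϑd r w).trans_lt (hR r ((le_max_left _ _).trans hr))⟩
  have hΘR : ∀ e > 0, ∃ R : ℝ, 0 ≤ R ∧ (∀ r, R ≤ r → ∀ w, dist (ϑ r w) w.2 < e) ∧
      ∀ w (t : unitInterval), R / (1 + R) ≤ t → dist (Θ (w, t)) w.2 < e := by
    intro e he
    obtain ⟨R, hR0, hR⟩ := hR e he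
    refine ⟨R, hR0, hR, fun w t ht => ?_⟩
    by_cases ht1 : (t : ℝ) < 1
    · rw [hΘ1 w t ht1]
      exact hR _ (le_par ht1 hR0 ht) w
    · rw [hΘ2 w t ht1, dist_self]
      exact he
  have hΘc : Continuous Θ := by
    rw [continuous_iff_continuousAt]
    rintro ⟨w₀, t₀⟩
    by_cases ht₀ : (t₀ : ℝ) < 1
    · have h4 : ∀ᶠ z : (N × T) × unitInterval in 𝓝 (w₀, t₀), (z.2 : ℝ) < 1 :=
        ((continuous_subtype_val.comp continuous_snd).tendsto (w₀, t₀)).eventually
          (gt_mem_nhds ht₀)
      have h5 : (fun z : (N × T) × unitInterval => ϑ (par z.2) z.1) =ᶠ[𝓝 (w₀, t₀)] Θ := by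
        filter_upwards [h4] with z hz
        exact (hΘ1 z.1 z.2 hz).symm
      refine ContinuousAt.congr ?_ h5
      have h6 : ContinuousAt (fun z : (N × T) × unitInterval => (par z.2, z.1)) (w₀, t₀) := by
        refine ContinuousAt.prodMk ?_ continuousAt_fst
        exact ContinuousAt.comp (f := fun z : (N × T) × unitInterval => (z.2 : ℝ))
          (continuousAt_par ht₀) (continuous_subtype_val.comp continuous_snd).continuousAt
      exact ContinuousAt.comp (f := fun z : (N × T) × unitInterval => (par z.2, z.1))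
        hϑc.continuousAt h6
    · rw [ContinuousAt, hΘ2 _ _ ht₀, Metric.tendsto_nhds]
      intro e he
      obtain ⟨R, hR0, -, hR⟩ := hΘR (e / 2) (by linarith)
      have ht₁ : (t₀ : ℝ) = 1 := le_antisymm t₀.2.2 (not_lt.1 ht₀)
      have hlt : R / (1 + R) < t₀ := by
        rw [ht₁, div_lt_one (by linarith)]
        linarith
      have h4 : ∀ᶠ z : (N × T) × unitInterval in 𝓝 (w₀, t₀), R / (1 + R) < (z.2 : ℝ) :=
        ((continuous_subtype_val.comp continuous_snd).tendsto (w₀, t₀)).eventually
          (lt_mem_nhds hlt)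
      have h5 : ∀ᶠ z : (N × T) × unitInterval in 𝓝 (w₀, t₀), dist z.1.2 w₀.2 < e / 2 :=
        ((continuous_snd.comp continuous_fst).tendsto (w₀, t₀)).eventually
          (Metric.ball_mem_nhds _ (by linarith))
      filter_upwards [h4, h5] with z h4 h5
      calc dist (Θ z) w₀.2 ≤ dist (Θ z) z.1.2 + dist z.1.2 w₀.2 := dist_triangle _ _ _
        _ < e / 2 + e / 2 := add_lt_add (hR z.1 z.2 h4.le) h5
        _ = e := by ring
  let H : (N × T) × unitInterval → (B × T) × unitInterval := fun z => ((q z.1.1, Θ z), z.2)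
  have hHc : Continuous H := ((hq.comp (continuous_fst.comp continuous_fst)).prodMk hΘc).prodMk
    continuous_snd
  refine ⟨(N × T) × unitInterval, inferInstance, Prod.snd, H, ?_, fun _ => rfl, ⟨?_, ?_⟩, ?_, ?_⟩
  · exact locTriv_of_homeo (Homeomorph.prodComm _ _) _ (fun _ => rfl)
  · exact hHc.isProperMap
  · intro e he X _ f F hf hF hF0
    obtain ⟨R, hR0, hR1, hR2⟩ := hΘR (e / 8) (by linarith)
    have htR : R / (1 + R) < 1 := by
      rw [div_lt_one (by linarith)]
      linarith
    -- the stopped parameter
    let s : unitInterval → ℝ := fun t => par (min (t : ℝ) (R / (1 + R)))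
    have hs : Continuous s := by
      rw [continuous_iff_continuousAt]
      intro t
      exact ContinuousAt.comp (f := fun t : unitInterval => min (t : ℝ) (R / (1 + R)))
        (continuousAt_par ((min_le_right _ _).trans_lt htR))
        (continuous_subtype_val.min continuous_const).continuousAt
    let H' : (N × T) × unitInterval → (B × T) × unitInterval := fun z =>
      ((q z.1.1, ϑ (s z.2) z.1), z.2)
    have hH'c : Continuous H' := ((hq.comp (continuous_fst.comp continuous_fst)).prodMk
      (hϑc.comp ((hs.comp continuous_snd).prodMk continuous_fst))).prodMk continuous_snd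
    have hH' : HLP.{u, v, w} H' := by
      have h4 : HLP.{u, v, w} (Prod.map (Prod.map p id) id :
          (M × T) × unitInterval → (B × T) × unitInterval) :=
        (hp.prodMap_id T).prodMap_id unitInterval
      have h5 := h4.comp_homeo (famHomeo g h1 s hs)
      have h6 : H' = fun z => (Prod.map (Prod.map p id) id :
          (M × T) × unitInterval → (B × T) × unitInterval) (famHomeo g h1 s hs z) := by
        funext z
        refine Prod.ext (Prod.ext ?_ rfl) rfl
        exact (hgp (s z.2) z.1).symm
      rw [h6]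
      exact h5
    have hclose : ∀ z, dist (Θ z) (ϑ (s z.2) z.1) < e / 4 := by
      rintro ⟨w, t⟩
      rcases le_total (t : ℝ) (R / (1 + R)) with ht | ht
      · have h4 : s t = par t := by
          change par (min (t : ℝ) (R / (1 + R))) = _
          rw [min_eq_left ht]
        rw [hΘ1 w t (ht.trans_lt htR)]
        change dist (ϑ (par t) w) (ϑ (s t) w) < _
        rw [h4, dist_self]
        linarith
      · have h4 : R ≤ s t := by
          change R ≤ par (min (t : ℝ) (R / (1 + R)))
          rw [min_eq_right ht]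
          exact le_par htR hR0 le_rfl
        have h5 := hR1 (s t) h4 w
        have h6 := hR2 w t ht
        calc dist (Θ (w, t)) (ϑ (s t) w) ≤ dist (Θ (w, t)) w.2 + dist w.2 (ϑ (s t) w) :=
              dist_triangle _ _ _
          _ < e / 8 + e / 8 := by
              rw [dist_comm w.2]
              exact add_lt_add h6 h5
          _ = e / 4 := by ring
    let Δ : X → T := fun x => (H' (f x)).1.2 - (H (f x)).1.2
    have hΔ : Continuous Δ :=
      (continuous_snd.comp (continuous_fst.comp (hH'c.comp hf))).sub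
        (continuous_snd.comp (continuous_fst.comp (hHc.comp hf)))
    have hΔn : ∀ x, ‖Δ x‖ < e / 4 := by
      intro x
      have h4 := hclose (f x)
      rw [dist_comm, dist_eq_norm] at h4
      exact h4
    let F' : X × unitInterval → (B × T) × unitInterval := fun z =>
      (((F z).1.1, (F z).1.2 + Δ z.1), (F z).2)
    have hF' : Continuous F' := ((continuous_fst.comp (continuous_fst.comp hF)).prodMk
      ((continuous_snd.comp (continuous_fst.comp hF)).add (hΔ.comp continuous_fst))).prodMk
      (continuous_snd.comp hF)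
    obtain ⟨G, hG, hG0, hG1⟩ := hH' X f F' hf hF' (by
      intro x
      change (((F (x, 0)).1.1, (F (x, 0)).1.2 + Δ x), (F (x, 0)).2) = H' (f x)
      rw [hF0]
      refine Prod.ext (Prod.ext rfl ?_) rfl
      change (H (f x)).1.2 + ((H' (f x)).1.2 - (H (f x)).1.2) = (H' (f x)).1.2
      abel)
    refine ⟨G, hG, hG0, fun z => ?_⟩
    have h4 : dist (H (G z)) (H' (G z)) < e / 4 := by
      have h5 := hclose (G z)
      change dist ((q (G z).1.1, Θ (G z)), (G z).2) ((q (G z).1.1, ϑ (s (G z).2) (G z).1), (G z).2)
        < e / 4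
      rw [Prod.dist_eq, Prod.dist_eq, dist_self, dist_self]
      simp only
      rw [max_eq_right dist_nonneg, max_eq_left dist_nonneg]
      exact h5
    have h5 : dist (F' z) (F z) < e / 4 := by
      change dist (((F z).1.1, (F z).1.2 + Δ z.1), (F z).2) (F z) < _
      rw [Prod.dist_eq, Prod.dist_eq, dist_self, dist_self]
      simp only
      rw [dist_self_add_left, max_eq_right (norm_nonneg _), max_eq_left (norm_nonneg _)]
      exact hΔn z.1
    calc dist (H (G z)) (F z) ≤ dist (H (G z)) (H' (G z)) + dist (H' (G z)) (F z) :=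
          dist_triangle _ _ _
      _ < e / 4 + e / 4 := by
          rw [hG1]
          rw [hG1] at h4
          exact add_lt_add h4 h5
      _ < e := by linarith
  · -- the fibre over `0`
    let G₀ : M × T ≃ₜ N × T :=
      { toFun := fun z => ((g ((0, z.1), z.2)).1.2, (g ((0, z.1), z.2)).2)
        invFun := fun z => ((g.symm ((0, z.1), z.2)).1.2, (g.symm ((0, z.1), z.2)).2)
        left_inv := by
          rintro ⟨y, θ⟩
          have h4 : ((0, (g ((0, y), θ)).1.2), (g ((0, y), θ)).2) =
            g ((0, y), θ) := Prod.ext (Prod.ext (h1 ((0, y), θ)).symm rfl) rfl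
          simp only [h4, g.symm_apply_apply]
        right_inv := by
          rintro ⟨y, θ⟩
          have h4 : ((0, (g.symm ((0, y), θ)).1.2), (g.symm ((0, y), θ)).2) =
            g.symm ((0, y), θ) := Prod.ext (Prod.ext (hg1 0 (y, θ)).symm rfl) rfl
          simp only [h4, g.apply_symm_apply]
        continuous_toFun := by
          have h4 : Continuous fun z : M × T => g ((0, z.1), z.2) := g.continuous.comp
            ((continuous_const.prodMk continuous_fst).prodMk continuous_snd)
          exact (continuous_snd.comp (continuous_fst.comp h4)).prodMk (continuous_snd.comp h4)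
        continuous_invFun := by
          have h4 : Continuous fun z : N × T => g.symm ((0, z.1), z.2) := g.symm.continuous.comp
            ((continuous_const.prodMk continuous_fst).prodMk continuous_snd)
          exact (continuous_snd.comp (continuous_fst.comp h4)).prodMk (continuous_snd.comp h4) }
    let k : N × T ≃ₜ (Prod.snd ⁻¹' {0} : Set ((N × T) × unitInterval)) :=
      { toFun := fun z => ⟨(z, 0), rfl⟩
        invFun := fun z => z.1.1
        left_inv := fun z => rfl
        right_inv := fun z => by
          apply Subtype.ext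
          exact Prod.ext rfl z.2.symm
        continuous_toFun := Continuous.subtype_mk (continuous_id.prodMk continuous_const) _
        continuous_invFun := continuous_fst.comp continuous_subtype_val }
    refine ⟨G₀.trans k, fun z => ?_⟩
    have h0 : ((0 : unitInterval) : ℝ) = 0 := rfl
    have h4 : Θ (G₀ z, 0) = z.2 := by
      rw [hΘ1 _ _ (by rw [h0]; exact zero_lt_one), h0]
      have h5 : par 0 = 0 := by unfold par; simp
      rw [h5]
      change (g.symm ((0, (g ((0, z.1), z.2)).1.2), (g ((0, z.1), z.2)).2)).2 = z.2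
      have h6 : ((0, (g ((0, z.1), z.2)).1.2), (g ((0, z.1), z.2)).2) =
        g ((0, z.1), z.2) := Prod.ext (Prod.ext (h1 ((0, z.1), z.2)).symm rfl) rfl
      rw [h6, g.symm_apply_apply]
    exact Prod.ext (h2 ((0, z.1), z.2)) h4
  · -- the fibre over `1`
    let k : N × T ≃ₜ (Prod.snd ⁻¹' {1} : Set ((N × T) × unitInterval)) :=
      { toFun := fun z => ⟨(z, 1), rfl⟩
        invFun := fun z => z.1.1
        left_inv := fun z => rfl
        right_inv := fun z => by
          apply Subtype.ext
          exact Prod.ext rfl z.2.symm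
        continuous_toFun := Continuous.subtype_mk (continuous_id.prodMk continuous_const) _
        continuous_invFun := continuous_fst.comp continuous_subtype_val }
    refine ⟨k, fun z => ?_⟩
    have h0 : ((1 : unitInterval) : ℝ) = 1 := rfl
    exact Prod.ext rfl (hΘ2 z 1 (by rw [h0]; exact lt_irrefl _))

end Family

end Pool.Agent.Helper692_MAF
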