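import Mathlib
import Pool.Agent.Helper692_MAF.Iso
import Pool.Agent.Helper692_MAF.Defs

/-! Lifting of flows of the base of a locally trivial map with compact total space to isotopies of
the total space. -/

namespace Pool.Agent.Helper692_MAF

open Function Filter Topology Set Bundle

section Step

variable {M B F : Type*} [TopologicalSpace M] [TopologicalSpace B] [TopologicalSpace F]
  {p : M → B}

/-- Transport to the fibre over `b` in a trivialization. -/
noncomputable def tr (e : Trivialization F p) (b : B) (m : M) : M :=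
  e.toOpenPartialHomeomorph.symm (b, (e m).2)

lemma proj_tr (e : Trivialization F p) {b : B} (hb : b ∈ e.baseSet) (m : M) : p (tr e b m) = b :=
  e.proj_symm_apply' hb

lemma tr_self (e : Trivialization F p) {m : M} (hm : p m ∈ e.baseSet) : tr e (p m) m = m :=
  e.symm_apply_mk_proj (e.mem_source.2 hm)

lemma tr_tr (e : Trivialization F p) {b : B} (b' : B) (hb : b ∈ e.baseSet) (m : M) :
    tr e b' (tr e b m) = tr e b' m := by
  unfold tr
  rw [e.apply_symm_apply' hb]

lemma continuousOn_tr (e : Trivialization F p) :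
    ContinuousOn (fun z : B × M => tr e z.1 z.2) (e.baseSet ×ˢ (p ⁻¹' e.baseSet)) := by
  unfold tr
  refine e.toOpenPartialHomeomorph.symm.continuousOn.comp (t := e.target) ?_ ?_
  · refine continuousOn_fst.prodMk (continuous_snd.comp_continuousOn ?_)
    refine e.toOpenPartialHomeomorph.continuousOn.comp continuousOn_snd ?_
    rintro ⟨b, m⟩ ⟨h1, h2⟩
    exact e.mem_source.2 h2
  · rintro ⟨b, m⟩ ⟨h1, h2⟩
    exact e.mem_target.2 h1

lemma bijOn_tr (e : Trivialization F p) {b b' : B} (hb : b ∈ e.baseSet) (hb' : b' ∈ e.baseSet) :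
    BijOn (tr e b') (p ⁻¹' {b}) (p ⁻¹' {b'}) := by
  refine BijOn.mk ?_ ?_ ?_
  · intro m _
    exact proj_tr e hb' m
  · intro m hm n hn h
    rw [mem_preimage, mem_singleton_iff] at hm hn
    have h1 : tr e b (tr e b' m) = tr e b (tr e b' n) := by rw [h]
    rw [tr_tr e b hb', tr_tr e b hb'] at h1
    nth_rewrite 1 [← hm] at h1
    rw [← hn] at h1
    rwa [tr_self e (by rw [hm]; exact hb), tr_self e (by rw [hn]; exact hb)] at h1
  · intro m hm
    rw [mem_preimage, mem_singleton_iff] at hm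
    refine ⟨tr e b m, proj_tr e hb m, ?_⟩
    rw [tr_tr e b' hb, ← hm]
    exact tr_self e (by rw [hm]; exact hb')

/-- The flow `φ`, run for the time `s * μ b` at the point `b`, lifts to a family of maps which
are bijective on the fibres. -/
def Lifted (p : M → B) (φ : ℝ → B → B) (μ : B → ℝ) : Prop :=
  ∃ T : unitInterval × M → M, Continuous T ∧ (∀ m, T (0, m) = m) ∧
    ∀ (s : unitInterval) b, BijOn (fun m => T (s, m)) (p ⁻¹' {b}) (p ⁻¹' {φ (s * μ b) b})

lemma lifted_zero (φ : ℝ → B → B) (h0 : ∀ b, φ 0 b = b) : Lifted p φ (fun _ => 0) := by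
  refine ⟨fun z => z.2, continuous_snd, fun _ => rfl, fun s b => ?_⟩
  rw [mul_zero, h0]
  exact bijOn_id _

lemma lifted_step (hp : Continuous p) {φ : ℝ → B → B} (h0 : ∀ b, φ 0 b = b)
    (hφ : Continuous fun z : ℝ × B => φ z.1 z.2) (e : Trivialization F p) {V : Set B}
    (hV : IsOpen V) (hVe : ∀ b ∈ V, ∀ r ∈ Icc (0 : ℝ) 1, φ r b ∈ e.baseSet) {μ ν : B → ℝ}
    (hμ : Continuous μ) (hν : Continuous ν) (h0μ : ∀ b, 0 ≤ μ b) (h0ν : ∀ b, 0 ≤ ν b)
    (h1 : ∀ b, μ b + ν b ≤ 1) (hsupp : tsupport ν ⊆ V) (hT : Lifted p φ μ) :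
    Lifted p φ (fun b => μ b + ν b) := by
  classical
  obtain ⟨T, hTc, hT0, hTb⟩ := hT
  have hpT : ∀ (s : unitInterval) m, p (T (s, m)) = φ (s * μ (p m)) (p m) := fun s m =>
    (hTb s (p m)).mapsTo rfl
  have hr1 : ∀ (s : unitInterval) b, (s : ℝ) * μ b ∈ Icc (0 : ℝ) 1 := fun s b => by
    have := h1 b
    have h2 := h0μ b
    have h3 := h0ν b
    exact ⟨mul_nonneg s.2.1 h2, mul_le_one₀ s.2.2 h2 (by linarith)⟩
  have hr2 : ∀ (s : unitInterval) b, (s : ℝ) * (μ b + ν b) ∈ Icc (0 : ℝ) 1 := fun s b => by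
    have := h1 b
    have h2 := h0μ b
    have h3 := h0ν b
    exact ⟨mul_nonneg s.2.1 (by linarith), mul_le_one₀ s.2.2 (by linarith) this⟩
  have hν0 : ∀ b, b ∉ tsupport ν → ν b = 0 := fun b hb => image_eq_zero_of_notMem_tsupport hb
  let T' : unitInterval × M → M := fun z =>
    if p z.2 ∈ V then tr e (φ (z.1 * (μ (p z.2) + ν (p z.2))) (p z.2)) (T z) else T z
  have hT'1 : ∀ (s : unitInterval) m, p m ∈ V →
      T' (s, m) = tr e (φ (s * (μ (p m) + ν (p m))) (p m)) (T (s, m)) := fun s m hm => if_pos hm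
  have hT'2 : ∀ (s : unitInterval) m, p m ∉ V → T' (s, m) = T (s, m) := fun s m hm => if_neg hm
  have hT'3 : ∀ (s : unitInterval) m, p m ∉ tsupport ν → T' (s, m) = T (s, m) := by
    intro s m hm
    by_cases hV' : p m ∈ V
    · rw [hT'1 s m hV', hν0 _ hm, add_zero, ← hpT]
      exact tr_self e (by rw [hpT]; exact hVe _ hV' _ (hr1 _ _))
    · exact hT'2 s m hV'
  refine ⟨T', ?_, ?_, ?_⟩
  · rw [continuous_iff_continuousAt]
    rintro ⟨s, m⟩
    by_cases hm : p m ∈ V
    · have hev : ∀ᶠ z : unitInterval × M in 𝓝 (s, m), p z.2 ∈ V :=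
        (hV.preimage (hp.comp continuous_snd)).mem_nhds hm
      have e1 : (fun z : unitInterval × M =>
          tr e (φ (z.1 * (μ (p z.2) + ν (p z.2))) (p z.2)) (T z)) =ᶠ[𝓝 (s, m)] T' := by
        filter_upwards [hev] with z hz
        exact (if_pos hz).symm
      refine ContinuousAt.congr ?_ e1
      have hin : (φ (s * (μ (p m) + ν (p m))) (p m), T (s, m)) ∈
          e.baseSet ×ˢ (p ⁻¹' e.baseSet) := by
        refine ⟨hVe _ hm _ (hr2 _ _), ?_⟩
        change p (T (s, m)) ∈ e.baseSet
        rw [hpT]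
        exact hVe _ hm _ (hr1 _ _)
      have hopen : IsOpen (e.baseSet ×ˢ (p ⁻¹' e.baseSet)) :=
        e.open_baseSet.prod (e.open_baseSet.preimage hp)
      have hc : ContinuousAt (fun z : B × M => tr e z.1 z.2)
          (φ (s * (μ (p m) + ν (p m))) (p m), T (s, m)) :=
        (continuousOn_tr e).continuousAt (hopen.mem_nhds hin)
      have hg : Continuous fun z : unitInterval × M =>
          (φ (z.1 * (μ (p z.2) + ν (p z.2))) (p z.2), T z) := by
        refine Continuous.prodMk (hφ.comp (Continuous.prodMk ?_ (hp.comp continuous_snd))) hTc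
        exact (continuous_subtype_val.comp continuous_fst).mul
          ((hμ.comp (hp.comp continuous_snd)).add (hν.comp (hp.comp continuous_snd)))
      exact ContinuousAt.comp (x := (s, m)) (f := fun z : unitInterval × M =>
          (φ (z.1 * (μ (p z.2) + ν (p z.2))) (p z.2), T z)) hc hg.continuousAt
    · have hm' : p m ∉ tsupport ν := fun h => hm (hsupp h)
      have hev : ∀ᶠ z : unitInterval × M in 𝓝 (s, m), p z.2 ∉ tsupport ν :=
        ((isClosed_tsupport ν).isOpen_compl.preimage (hp.comp continuous_snd)).mem_nhds hm'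
      have e1 : T =ᶠ[𝓝 (s, m)] T' := by
        filter_upwards [hev] with z hz
        exact (hT'3 z.1 z.2 hz).symm
      exact hTc.continuousAt.congr e1
  · intro m
    by_cases hm : p m ∈ V
    · rw [hT'1 0 m hm, hT0, show ((0 : unitInterval) : ℝ) = 0 from rfl, zero_mul, h0]
      have h2 := hVe _ hm 0 ⟨le_rfl, zero_le_one⟩
      rw [h0] at h2
      exact tr_self e h2
    · rw [hT'2 0 m hm, hT0]
  · intro s b
    by_cases hb : b ∈ V
    · have h2 := (bijOn_tr e (hVe b hb _ (hr1 s b)) (hVe b hb _ (hr2 s b))).comp (hTb s b)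
      refine h2.congr ?_
      intro m hm
      rw [mem_preimage, mem_singleton_iff] at hm
      subst hm
      exact (hT'1 s m hb).symm
    · have hb' : b ∉ tsupport ν := fun h => hb (hsupp h)
      change BijOn (fun m => T' (s, m)) _ (p ⁻¹' {φ (s * (μ b + ν b)) b})
      rw [hν0 b hb', add_zero]
      refine (hTb s b).congr ?_
      intro m hm
      rw [mem_preimage, mem_singleton_iff] at hm
      subst hm
      exact (hT'2 s m hb).symm

end Step

section Main

variable {M B : Type*} [TopologicalSpace M] [TopologicalSpace B] {p : M → B}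

lemma LocTriv.continuous (h : LocTriv p) : Continuous p := by
  rw [continuous_iff_continuousAt]
  intro m
  obtain ⟨e, he⟩ := h (p m)
  exact (e.map_proj_nhds (e.mem_source.2 he)).le

/-- A flow on the base of a locally trivial map with compact total space and compact base lifts
to an isotopy of the total space. -/
theorem exists_isotopy [CompactSpace M] [T2Space M] [CompactSpace B] [T2Space B]
    (hp : LocTriv p) (φ : ℝ → B → B) (h0 : ∀ b, φ 0 b = b)
    (hadd : ∀ s t b, φ (s + t) b = φ s (φ t b)) (hφ : Continuous fun z : ℝ × B => φ z.1 z.2) :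
    ∃ t : Isotopy M, ∀ s x, p (t.map s x) = φ s (p x) := by
  classical
  have hpc := hp.continuous
  choose e he using hp
  obtain ⟨t, ht⟩ := isCompact_univ.elim_finite_subcover (fun b => (e b).baseSet)
    (fun b => (e b).open_baseSet) (fun b _ => mem_iUnion.2 ⟨b, he b⟩)
  obtain ⟨f, hf⟩ := PartitionOfUnity.exists_isSubordinate (isClosed_univ (X := B))
    (fun i : t => (e i).baseSet) (fun i => (e i).open_baseSet) (by
      intro b hb
      have h1 : b ∈ ⋃ i ∈ t, (e i).baseSet := ht hb
      rw [mem_iUnion₂] at h1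
      obtain ⟨i, hi, hi'⟩ := h1
      exact mem_iUnion.2 ⟨⟨i, hi⟩, hi'⟩)
  -- the choice of the time
  have hε : ∀ i : t, ∀ᶠ ε in 𝓝 (0 : ℝ), ∃ V : Set B, IsOpen V ∧ tsupport (f i) ⊆ V ∧
      ∀ b ∈ V, ∀ r ∈ Icc (0 : ℝ) 1, φ (ε * r) b ∈ (e i).baseSet := by
    intro i
    obtain ⟨u, V, hu, hV, hu0, hVs, huV⟩ := generalized_tube_lemma
      (isCompact_singleton (x := (0 : ℝ))) ((isClosed_tsupport (f i)).isCompact)
      (n := (fun z : ℝ × B => φ z.1 z.2) ⁻¹' (e i).baseSet)
      ((e i).open_baseSet.preimage hφ) (by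
        rintro ⟨r, b⟩ ⟨hr, hb⟩
        have hr' : r = 0 := hr
        subst hr'
        change φ 0 b ∈ (e i).baseSet
        rw [h0]
        exact hf i hb)
    have hu1 : u ∈ 𝓝 (0 : ℝ) := hu.mem_nhds (hu0 rfl)
    obtain ⟨δ, hδ, hδu⟩ := Metric.mem_nhds_iff.1 hu1
    filter_upwards [Metric.ball_mem_nhds (0 : ℝ) hδ] with ε hε
    refine ⟨V, hV, hVs, fun b hb r hr => ?_⟩
    have h2 : ε * r ∈ u := by
      apply hδu
      rw [Metric.mem_ball, dist_zero_right, Real.norm_eq_abs] at hε ⊢
      rw [abs_mul]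
      calc |ε| * |r| ≤ |ε| * 1 := by
            apply mul_le_mul_of_nonneg_left _ (abs_nonneg _)
            rw [abs_of_nonneg hr.1]
            exact hr.2
        _ < δ := by rwa [mul_one]
    exact huV (show (ε * r, b) ∈ u ×ˢ V from ⟨h2, hb⟩)
  obtain ⟨ε, hε1, hε0⟩ : ∃ ε : ℝ, (∀ i : t, ∃ V : Set B, IsOpen V ∧ tsupport (f i) ⊆ V ∧
      ∀ b ∈ V, ∀ r ∈ Icc (0 : ℝ) 1, φ (ε * r) b ∈ (e i).baseSet) ∧ 0 < ε := by
    have h1 := (eventually_all.2 hε)
    have h2 : ∀ᶠ ε in 𝓝[>] (0 : ℝ), ∀ i : t, ∃ V : Set B, IsOpen V ∧ tsupport (f i) ⊆ V ∧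
      ∀ b ∈ V, ∀ r ∈ Icc (0 : ℝ) 1, φ (ε * r) b ∈ (e i).baseSet := nhdsWithin_le_nhds h1
    have h3 : ∀ᶠ ε in 𝓝[>] (0 : ℝ), 0 < ε := eventually_mem_nhdsWithin
    exact (h2.and h3).exists
  -- the induction
  have hfsum : ∀ b, ∑ i, f i b = 1 := fun b => by
    rw [← finsum_eq_sum_of_fintype]
    exact f.sum_eq_one (mem_univ b)
  have hfs : ∀ s : Finset t, Lifted p (fun r => φ (ε * r)) (fun b => ∑ i ∈ s, f i b) := by
    intro s
    induction s using Finset.induction_on with
    | empty =>
      simp only [Finset.sum_empty]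
      exact lifted_zero _ (fun b => by rw [mul_zero, h0])
    | insert i s hi ih =>
      obtain ⟨V, hV, hVs, hVe⟩ := hε1 i
      have h2 := lifted_step (μ := fun b => ∑ i ∈ s, f i b) (ν := f i) hpc
        (φ := fun r => φ (ε * r)) (fun b => by rw [mul_zero, h0])
        (hφ.comp ((continuous_const.mul continuous_fst).prodMk continuous_snd)) (e i) hV hVe
        (continuous_finset_sum _ fun j _ => (f j).continuous) (f i).continuous
        (fun b => Finset.sum_nonneg fun j _ => f.nonneg j b) (fun b => f.nonneg i b)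
        (fun b => by
          rw [add_comm, ← Finset.sum_insert (f := fun j => f j b) hi, ← hfsum b]
          exact Finset.sum_le_sum_of_subset_of_nonneg (Finset.subset_univ _)
            (fun j _ _ => f.nonneg j b)) hVs ih
      have h3 : (fun b => ∑ j ∈ insert i s, f j b) = fun b => ∑ j ∈ s, f j b + f i b := by
        funext b
        rw [Finset.sum_insert hi, add_comm]
      rw [h3]
      exact h2
  obtain ⟨T, hTc, hT0, hTb⟩ := hfs Finset.univ
  simp only [hfsum, mul_one] at hTb
  have hpT : ∀ (s : unitInterval) m, p (T (s, m)) = φ (ε * s) (p m) := fun s m =>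
    (hTb s (p m)).mapsTo rfl
  have hφinj : ∀ s b b', φ s b = φ s b' → b = b' := by
    intro s b b' h
    have h1 : φ (-s) (φ s b) = φ (-s) (φ s b') := by rw [h]
    rwa [← hadd, ← hadd, neg_add_cancel, h0, h0] at h1
  have hbij : Bijective (fun z : unitInterval × M => (z.1, T z)) := by
    constructor
    · rintro ⟨s, m⟩ ⟨s', m'⟩ h
      have h1 : s = s' := congrArg Prod.fst h
      subst h1
      have h2 : T (s, m) = T (s, m') := congrArg Prod.snd h
      have h3 : p m = p m' := by
        apply hφinj (ε * s)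
        rw [← hpT, ← hpT, h2]
      have h4 := (hTb s (p m')).injOn (show m ∈ p ⁻¹' {p m'} from h3) (show m' ∈ _ from rfl) h2
      rw [h4]
    · rintro ⟨s, m⟩
      have h1 : φ (ε * s) (φ (-(ε * s)) (p m)) = p m := by
        rw [← hadd, add_neg_cancel, h0]
      obtain ⟨m', hm', hm''⟩ := (hTb s (φ (-(ε * s)) (p m))).surjOn
        (show m ∈ p ⁻¹' {φ (ε * s) (φ (-(ε * s)) (p m))} by rw [h1]; rfl)
      exact ⟨(s, m'), Prod.ext rfl hm''⟩
  let H : unitInterval × M ≃ₜ unitInterval × M :=
    Continuous.homeoOfEquivCompactToT2 (f := Equiv.ofBijective _ hbij)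
      (continuous_fst.prodMk hTc)
  have hH : ∀ z, H z = (z.1, T z) := fun z => rfl
  have hHs1 : ∀ z, (H.symm z).1 = z.1 := fun z => by
    conv_rhs => rw [← H.apply_symm_apply z]
    rw [hH]
  have hHs2 : ∀ (s : unitInterval) m, H.symm (s, m) = (s, (H.symm (s, m)).2) := fun s m =>
    Prod.ext (hHs1 _) rfl
  let g : unitInterval → M ≃ₜ M := fun s =>
    { toFun := fun m => T (s, m)
      invFun := fun m => (H.symm (s, m)).2
      left_inv := fun m => by
        change (H.symm (s, T (s, m))).2 = m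
        have h1 : (s, T (s, m)) = H (s, m) := rfl
        rw [h1, H.symm_apply_apply]
      right_inv := fun m => by
        change T (s, (H.symm (s, m)).2) = m
        rw [← hHs2]
        have h1 : H (H.symm (s, m)) = (s, m) := H.apply_symm_apply _
        rw [hH] at h1
        exact congrArg Prod.snd h1
      continuous_toFun := hTc.comp (continuous_const.prodMk continuous_id)
      continuous_invFun := continuous_snd.comp
        (H.symm.continuous.comp (continuous_const.prodMk continuous_id)) }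
  have hg0 : g 0 = 1 := by
    ext m
    exact hT0 m
  let t₀ : Isotopy M := extIsotopy g hg0 hTc (continuous_snd.comp H.symm.continuous)
  refine ⟨t₀.rescale (fun _ => ε⁻¹) continuous_const (fun _ _ => rfl), fun s x => ?_⟩
  change p (extMap g (ε⁻¹ * s) x) = _
  rw [extMap_cover g p (fun r => φ (ε * r)) (fun b => by rw [mul_zero, h0])
    (fun s t b => by rw [mul_add, hadd]) (fun s x => hpT s x)]
  change φ (ε * (ε⁻¹ * s)) (p x) = _
  rw [← mul_assoc, mul_inv_cancel₀ hε0.ne', one_mul]

end Main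

end Pool.Agent.Helper692_MAF
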