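import Mathlib
import Pool.Agent.Helper692_MAF.Fib
import Pool.Agent.Helper692_MAF.Lift

/-! The main theorem on bundles over compact quotients of simply connected solvable Lie groups. -/

universe g u v w

namespace Pool.Agent.Helper692_MAF

open Function Filter Topology Set

section

variable {n : ℕ} {G : Type g} [Group G] [TopologicalSpace G] [IsTopologicalGroup G]
  {Γ : Subgroup G} {B : Type v} [TopologicalSpace B] [CompactSpace B] [T2Space B]

lemma liftsFlows_of_locTriv (e : B ≃ₜ G ⧸ Γ) {M : Type u} [TopologicalSpace M] [CompactSpace M]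
    [T2Space M] {p : M → B} (hp : LocTriv p) : LiftsFlows G (fun m => e (p m)) (fun _ => ()) := by
  intro a ha ha'
  have ha0 : a 0 = 1 := by
    have := ha' 0 0
    rw [add_zero] at this
    exact mul_eq_left.1 this.symm
  obtain ⟨t, ht⟩ := exists_isotopy hp (fun s b => e.symm (a s • e b))
    (fun b => by simp only [ha0, one_smul, e.symm_apply_apply])
    (fun s t b => by simp only [ha', mul_smul, e.apply_symm_apply])
    (e.symm.continuous.comp ((ha.comp continuous_fst).smul (e.continuous.comp continuous_snd)))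
  exact ⟨t, fun s x => by simp only [ht, e.apply_symm_apply], fun _ _ => rfl⟩

/-- The family of homeomorphisms over the real line. -/
theorem exists_family (hG : RealChain n G) (hΓ : IsDiscrete (Γ : Set G)) (e : B ≃ₜ G ⧸ Γ)
    {M N : Type u} [TopologicalSpace M] [CompactSpace M] [T2Space M]
    [TopologicalSpace N] [CompactSpace N] [T2Space N] (p : C(M, B)) (q : C(N, B))
    (hp : LocTriv p) (hq : LocTriv q) (h : M ≃ₜ N)
    (hom : ContinuousMap.Homotopic (q.comp (h : C(M, N))) p) :
    ∃ (k : (ℝ × M) × (Fin n → UnitAddCircle) ≃ₜ (ℝ × N) × (Fin n → UnitAddCircle)) (δ : ℝ → ℝ),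
      Tendsto δ atTop (𝓝 0) ∧ (∀ z, (k z).1.1 = z.1.1) ∧ (∀ z, q (k z).1.2 = p z.1.2) ∧
      ∀ z, dist (k z).2 z.2 ≤ δ z.1.1 := by
  obtain ⟨F⟩ := hom.symm
  obtain ⟨U, hU, hU0, hU1⟩ := exists_mover Γ hΓ (fun z => e (F z))
    (e.continuous.comp F.continuous)
  have hv : ∀ m, e (q (h m)) = U (1, m) • e (p m) := by
    intro m
    have h1 := hU1 1 m
    have h2 : F (1, m) = q (h m) := F.apply_one m
    have h3 : F (0, m) = p m := F.apply_zero m
    rw [h2, h3] at h1
    exact h1
  have lift : ∀ {M : Type u} [TopologicalSpace M] [CompactSpace M] [T2Space M] {p : M → B},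
      LocTriv p → LiftsFlows G (fun z : ℝ × M => e (p z.2)) (fun z => ((), z.1)) := by
    intro M _ _ _ p hp a ha ha'
    obtain ⟨t, ht, -⟩ := liftsFlows_of_locTriv e hp a ha ha'
    exact ⟨t.idProd ℝ, fun s x => ht s x.2, fun s x => rfl⟩
  obtain ⟨k, δ, hδ, h1, h2, -, h4⟩ := induct n G hG (G ⧸ Γ) Unit (ℝ × M) (ℝ × N)
    (fun z => e (p z.2)) (fun z => e (q z.2)) (fun _ => ()) (fun _ => ()) Prod.fst Prod.fst
    continuous_fst (fun a b => by
      have h1 : (Prod.fst : ℝ × M → ℝ) ⁻¹' Icc a b = Icc a b ×ˢ univ := by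
        ext z; simp
      rw [h1]
      exact isCompact_Icc.prod isCompact_univ) (lift hp) (lift hq)
    ((Homeomorph.refl ℝ).prodCongr h) (fun _ => rfl) (fun z => U (1, z.2))
    (hU.comp (continuous_const.prodMk continuous_snd)) (fun z => hv z.2) (fun _ => 0)
    (fun z => by rw [dist_self]) tendsto_const_nhds
  exact ⟨k, δ, hδ, h1, fun z => e.injective (h2 z), h4⟩

lemma hlp_of_locTriv (hG : RealChain n G) (hΓ : IsDiscrete (Γ : Set G)) (e : B ≃ₜ G ⧸ Γ)
    {M : Type u} [TopologicalSpace M] [CompactSpace M] [T2Space M] (p : M → B)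
    (hp : LocTriv p) : HLP.{u, v, w} p := by
  obtain ⟨τ, hτ, hτ1, hτ2⟩ := exists_transport n G hG (G ⧸ Γ) M (fun m => e (p m))
    (liftsFlows_of_locTriv e hp)
  exact (hlp_of_transport Γ hΓ _ τ hτ hτ1 hτ2).homeo_comp e

end

/-- Torus-stabilised rigidity of bundles over compact solvmanifolds, controlled form. -/
theorem controlled_solv {n : ℕ} {G : Type g} [Group G] [TopologicalSpace G] [IsTopologicalGroup G]
    (hG : RealChain n G) {Γ : Subgroup G} (hΓ : IsDiscrete (Γ : Set G)) {B : Type v}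
    [MetricSpace B] [CompactSpace B] (e : B ≃ₜ G ⧸ Γ)
    {M N : Type u} [TopologicalSpace M] [CompactSpace M] [T2Space M]
    [TopologicalSpace N] [CompactSpace N] [T2Space N] (p : C(M, B)) (q : C(N, B))
    (hp : LocTriv p) (hq : LocTriv q) (h : M ≃ₜ N)
    (hom : ContinuousMap.Homotopic (q.comp (h : C(M, N))) p) :
    ControlledHomeo.{u, v, w} (fun z : M × (Fin n → UnitAddCircle) => (p z.1, z.2))
      (fun z : N × (Fin n → UnitAddCircle) => (q z.1, z.2)) := by
  obtain ⟨k, δ, hδ, h1, h2, h3⟩ := exists_family hG hΓ e p q hp hq h hom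
  exact controlled_of_family p q (hlp_of_locTriv hG hΓ e p hp) q.continuous k δ hδ h1 h2 h3

/-- Torus-stabilised rigidity of bundles over compact solvmanifolds, exact form. -/
theorem exact_solv {n : ℕ} {G : Type g} [Group G] [TopologicalSpace G] [IsTopologicalGroup G]
    (hG : RealChain n G) {Γ : Subgroup G} (hΓ : IsDiscrete (Γ : Set G)) {B : Type v}
    [TopologicalSpace B] [CompactSpace B] [T2Space B] (e : B ≃ₜ G ⧸ Γ)
    {M N : Type u} [TopologicalSpace M] [CompactSpace M] [T2Space M]
    [TopologicalSpace N] [CompactSpace N] [T2Space N] (p : C(M, B)) (q : C(N, B))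
    (hp : LocTriv p) (hq : LocTriv q) (h : M ≃ₜ N)
    (hom : ContinuousMap.Homotopic (q.comp (h : C(M, N))) p) (ε : ℝ) (hε : 0 < ε) :
    ∃ k : M × (Fin n → UnitAddCircle) ≃ₜ N × (Fin n → UnitAddCircle),
      (∀ z, q (k z).1 = p z.1) ∧ ∀ z, dist (k z).2 z.2 < ε := by
  obtain ⟨k, δ, hδ, h1, h2, h3⟩ := exists_family hG hΓ e p q hp hq h hom
  obtain ⟨R, hR⟩ := (hδ.eventually (gt_mem_nhds hε)).exists
  have h4 : ∀ z, (k.symm z).1.1 = z.1.1 := fun z => by rw [← h1, k.apply_symm_apply]
  refine ⟨{ toFun := fun z => ((k ((R, z.1), z.2)).1.2, (k ((R, z.1), z.2)).2)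
            invFun := fun z => ((k.symm ((R, z.1), z.2)).1.2, (k.symm ((R, z.1), z.2)).2)
            left_inv := ?_
            right_inv := ?_
            continuous_toFun := ?_
            continuous_invFun := ?_ }, fun z => h2 _, fun z => (h3 _).trans_lt hR⟩
  · rintro ⟨y, θ⟩
    have h5 : ((R, (k ((R, y), θ)).1.2), (k ((R, y), θ)).2) =
      k ((R, y), θ) := Prod.ext (Prod.ext (h1 ((R, y), θ)).symm rfl) rfl
    simp only [h5, k.symm_apply_apply]
  · rintro ⟨y, θ⟩
    have h5 : ((R, (k.symm ((R, y), θ)).1.2), (k.symm ((R, y), θ)).2) =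
      k.symm ((R, y), θ) := Prod.ext (Prod.ext (h4 ((R, y), θ)).symm rfl) rfl
    simp only [h5, k.apply_symm_apply]
  · have h5 : Continuous fun z : M × (Fin n → UnitAddCircle) => k ((R, z.1), z.2) :=
      k.continuous.comp ((continuous_const.prodMk continuous_fst).prodMk continuous_snd)
    exact (continuous_snd.comp (continuous_fst.comp h5)).prodMk (continuous_snd.comp h5)
  · have h5 : Continuous fun z : N × (Fin n → UnitAddCircle) => k.symm ((R, z.1), z.2) :=
      k.symm.continuous.comp ((continuous_const.prodMk continuous_fst).prodMk continuous_snd)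
    exact (continuous_snd.comp (continuous_fst.comp h5)).prodMk (continuous_snd.comp h5)

end Pool.Agent.Helper692_MAF
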